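import Mathlib

/-!
# Sums of two squares of real polynomials, and constants of `K(t)`
-/

open Filter Topology Polynomial

namespace Pool.Agent.H699R2

noncomputable section

/-- A real polynomial that is nonnegative everywhere is a sum of two squares. -/
theorem sos_of_nonneg (n : ℕ) : ∀ p : ℝ[X], p.natDegree ≤ n → (∀ x, 0 ≤ p.eval x) →
    ∃ a b : ℝ[X], p = a ^ 2 + b ^ 2 := by
  induction n using Nat.strong_induction_on with
  | _ n ih =>
    intro p hpn hp
    rcases Nat.eq_zero_or_pos p.natDegree with h0 | hpos
    · rw [eq_C_of_natDegree_eq_zero h0] at hp ⊢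
      have h1 := hp 0
      rw [eval_C] at h1
      refine ⟨C (Real.sqrt (p.coeff 0)), 0, ?_⟩
      rw [← C_pow, Real.sq_sqrt h1]
      simp
    · have hp0 : p ≠ 0 := by
        rintro rfl
        simp at hpos
      by_cases hroot : ∃ r, p.eval r = 0
      · obtain ⟨r, hr⟩ := hroot
        obtain ⟨q, hq⟩ := dvd_iff_isRoot.2 (show IsRoot p r from hr)
        have hmin : IsLocalMin (fun x => p.eval x) r := by
          refine Eventually.of_forall fun x => ?_
          change p.eval r ≤ p.eval x
          rw [hr]
          exact hp x
        have hder : p.derivative.eval r = 0 := by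
          rw [← Polynomial.deriv]
          exact hmin.deriv_eq_zero
        have hqr : q.eval r = 0 := by
          rw [hq] at hder
          simpa [derivative_mul] using hder
        obtain ⟨s, hs⟩ := dvd_iff_isRoot.2 (show IsRoot q r from hqr)
        have hps : p = (X - C r) ^ 2 * s := by
          rw [hq, hs]
          ring
        have hs0 : s ≠ 0 := by
          rintro rfl
          apply hp0
          rw [hps, mul_zero]
        have hdeg : p.natDegree = 2 + s.natDegree := by
          rw [hps, natDegree_mul (pow_ne_zero _ (X_sub_C_ne_zero r)) hs0, natDegree_pow,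
            natDegree_X_sub_C]
        have hsn : ∀ x, 0 ≤ s.eval x := by
          have h1 : ∀ x, x ≠ r → 0 ≤ s.eval x := by
            intro x hx
            have h2 := hp x
            rw [hps, eval_mul] at h2
            have h3 : 0 < eval x ((X - C r) ^ 2) := by
              have : x - r ≠ 0 := sub_ne_zero.2 hx
              simp only [eval_pow, eval_sub, eval_X, eval_C]
              positivity
            exact nonneg_of_mul_nonneg_right h2 h3
          intro x
          by_cases hx : x = r
          · subst hx
            have h2 : Tendsto (fun y => s.eval y) (𝓝[≠] x) (𝓝 (s.eval x)) :=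
              s.continuous.continuousAt.tendsto.mono_left nhdsWithin_le_nhds
            refine ge_of_tendsto h2 ?_
            filter_upwards [self_mem_nhdsWithin] with y hy
            exact h1 y hy
          · exact h1 x hx
        obtain ⟨a, b, hab⟩ := ih s.natDegree (by omega) s le_rfl hsn
        refine ⟨(X - C r) * a, (X - C r) * b, ?_⟩
        rw [hps, hab]
        ring
      · push Not at hroot
        obtain ⟨z, hz⟩ := IsAlgClosed.exists_aeval_eq_zero ℂ p
          (natDegree_pos_iff_degree_pos.1 hpos).ne'
        have him : z.im ≠ 0 := by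
          intro him
          apply hroot z.re
          have h1 : z = ((z.re : ℝ) : ℂ) := by
            apply Complex.ext <;> simp [him]
          rw [h1] at hz
          have h2 : aeval ((z.re : ℝ) : ℂ) p = ((p.eval z.re : ℝ) : ℂ) := by
            have := aeval_algebraMap_apply ℂ z.re p
            simpa using this
          rw [h2] at hz
          exact_mod_cast hz
        obtain ⟨s, hs⟩ := p.quadratic_dvd_of_aeval_eq_zero_im_ne_zero hz him
        have hquad : (X ^ 2 - C (2 * z.re) * X + C (‖z‖ ^ 2) : ℝ[X]) =
            (X - C z.re) ^ 2 + C z.im ^ 2 := by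
          have : ‖z‖ ^ 2 = z.re ^ 2 + z.im ^ 2 := by
            rw [← Complex.normSq_eq_norm_sq, Complex.normSq_apply]
            ring
          rw [this]
          simp only [C_add, C_mul, C_pow, map_ofNat]
          ring
        rw [hquad] at hs
        have hq0 : ((X - C z.re) ^ 2 + C z.im ^ 2 : ℝ[X]) ≠ 0 := by
          intro h
          apply hp0
          rw [hs, h, zero_mul]
        have hs0 : s ≠ 0 := by
          rintro rfl
          apply hp0
          rw [hs, mul_zero]
        have hqd : ((X - C z.re) ^ 2 + C z.im ^ 2 : ℝ[X]).natDegree = 2 := by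
          rw [← hquad]
          compute_degree!
        have hdeg : p.natDegree = 2 + s.natDegree := by
          rw [hs, natDegree_mul hq0 hs0, hqd]
        have hsn : ∀ x, 0 ≤ s.eval x := by
          intro x
          have h2 := hp x
          rw [hs, eval_mul] at h2
          have h3 : 0 < eval x ((X - C z.re) ^ 2 + C z.im ^ 2 : ℝ[X]) := by
            simp only [eval_pow, eval_sub, eval_X, eval_C, eval_add]
            positivity
          exact nonneg_of_mul_nonneg_right h2 h3
        obtain ⟨a, b, hab⟩ := ih s.natDegree (by omega) s le_rfl hsn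
        refine ⟨(X - C z.re) * a - C z.im * b, (X - C z.re) * b + C z.im * a, ?_⟩
        rw [hs, hab]
        ring

/-- Over a field of characteristic zero, the elements `x` of `K(t)` such that `1 + x ^ 4` is a
square are constants. -/
theorem const_of_sq {K : Type} [Field K] [CharZero K] {x y : RatFunc K} (h : y ^ 2 = 1 + x ^ 4) :
    ∃ c : K, x = RatFunc.C c := by
  classical
  set a := x.num with ha
  set b := x.denom with hb
  have hb0 : b ≠ 0 := x.denom_ne_zero
  have hcop : IsCoprime a b := x.isCoprime_num_denom
  have hx : x = algebraMap K[X] (RatFunc K) a / algebraMap K[X] (RatFunc K) b :=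
    (x.num_div_denom).symm
  have hbne : algebraMap K[X] (RatFunc K) b ≠ 0 := by
    simpa using hb0
  have hz : (y * algebraMap K[X] (RatFunc K) b ^ 2) ^ 2 =
      algebraMap K[X] (RatFunc K) (b ^ 4 + a ^ 4) := by
    rw [mul_pow, h, hx]
    simp only [map_add, map_pow]
    field_simp
  obtain ⟨c, hc⟩ : ∃ c : K[X], algebraMap K[X] (RatFunc K) c =
      y * algebraMap K[X] (RatFunc K) b ^ 2 := by
    apply IsIntegrallyClosed.exists_algebraMap_eq_of_isIntegral_pow (n := 2) two_pos
    rw [hz]
    exact isIntegral_algebraMap
  have hc2 : c ^ 2 = b ^ 4 + a ^ 4 := by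
    apply IsFractionRing.injective K[X] (RatFunc K)
    rw [map_pow, hc, hz]
  have hconst : a.natDegree = 0 ∧ b.natDegree = 0 := by
    by_cases ha0 : a = 0
    · rw [ha0] at hcop
      have : IsUnit b := isCoprime_zero_left.1 hcop
      refine ⟨by rw [ha0]; simp, natDegree_eq_zero_of_isUnit this⟩
    · by_cases hc0 : c = 0
      · have h1 : b ^ 4 = a ^ 4 * (-1) := by
          rw [hc0] at hc2
          linear_combination -hc2
        have h2 : IsCoprime (a ^ 4) (b ^ 4) := hcop.pow
        rw [h1] at h2
        have h3 : IsUnit (a ^ 4) := by
          have : IsCoprime (a ^ 4) (a ^ 4) := by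
            rw [mul_neg_one] at h2
            exact IsCoprime.neg_right_iff _ _ |>.1 h2
          exact isCoprime_self.1 this
        have h4 : IsUnit a := (isUnit_pow_iff (by norm_num)).1 h3
        have h5 : IsUnit (b ^ 4) := by
          rw [h1]
          exact h3.mul (by simp)
        have h6 : IsUnit b := (isUnit_pow_iff (by norm_num)).1 h5
        exact ⟨natDegree_eq_zero_of_isUnit h4, natDegree_eq_zero_of_isUnit h6⟩
      · have := Polynomial.flt_catalan (p := 4) (q := 4) (r := 2) (by norm_num) (by norm_num)
          (by norm_num) (by norm_num) (k := K) (by exact_mod_cast (by norm_num : (4 : ℕ) ≠ 0))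
          (by exact_mod_cast (by norm_num : (4 : ℕ) ≠ 0))
          (by exact_mod_cast (by norm_num : (2 : ℕ) ≠ 0)) ha0 hb0 hc0 hcop
          (u := 1) (v := 1) (w := -1) one_ne_zero one_ne_zero (by simp) (by
            rw [hc2]
            simp only [C_1, C_neg]
            ring)
        exact ⟨this.1, this.2.1⟩
  refine ⟨a.coeff 0 / b.coeff 0, ?_⟩
  rw [hx, eq_C_of_natDegree_eq_zero hconst.1, eq_C_of_natDegree_eq_zero hconst.2]
  simp [RatFunc.algebraMap_C]

end

end Pool.Agent.H699R2
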