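import Pool.Agent.H699R2.An
import Pool.Agent.H699R2.Sos

open Filter Topology Polynomial

namespace Pool.Agent.H699R2

noncomputable section

theorem natDegree_sq_add_sq (A B : ℝ[X]) (hB : B ≠ 0) :
    (A ^ 2 + B ^ 2).natDegree = 2 * max A.natDegree B.natDegree := by
  rcases lt_trichotomy A.natDegree B.natDegree with h | h | h
  · rw [natDegree_add_eq_right_of_natDegree_lt (by rw [natDegree_pow, natDegree_pow]; omega),
      natDegree_pow, max_eq_right h.le]
  · rw [h, max_self]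
    refine natDegree_eq_of_le_of_coeff_ne_zero (p := A ^ 2 + B ^ 2) ?_ ?_
    · refine (natDegree_add_le _ _).trans (max_le ?_ ?_)
      · rw [natDegree_pow, h]
      · rw [natDegree_pow]
    · have h1 : (A ^ 2).coeff (2 * B.natDegree) = A.leadingCoeff ^ 2 := by
        rw [← h, coeff_pow_mul_natDegree]
      have h2 : (B ^ 2).coeff (2 * B.natDegree) = B.leadingCoeff ^ 2 := by
        rw [coeff_pow_mul_natDegree]
      rw [coeff_add, h1, h2]
      have : B.leadingCoeff ≠ 0 := leadingCoeff_ne_zero.2 hB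
      positivity
  · rw [natDegree_add_eq_left_of_natDegree_lt (by rw [natDegree_pow, natDegree_pow]; omega),
      natDegree_pow, max_eq_left h.le]

theorem natDegree_one_sub_X4 : (1 - X ^ 4 : ℝ[X]).natDegree = 4 := by
  compute_degree!

theorem natDegree_wr_le {P Q V : ℝ[X]} (eqn : V ^ 2 * (1 - X ^ 4) = Q ^ 4 - P ^ 4)
    (hJ : derivative P * Q - P * derivative Q ≠ 0) :
    (derivative P * Q - P * derivative Q).natDegree ≤ V.natDegree := by
  set A := P - Q with hA
  set B := P + Q with hB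
  have hw : wronskian A B = C (-2) * (derivative P * Q - P * derivative Q) := by
    rw [wronskian, hA, hB]
    simp only [derivative_sub, derivative_add, C_neg, map_ofNat]
    ring
  have hw0 : wronskian A B ≠ 0 := by
    rw [hw]
    exact mul_ne_zero (by simp) hJ
  have hwd : (wronskian A B).natDegree = (derivative P * Q - P * derivative Q).natDegree := by
    rw [hw, natDegree_C_mul (by norm_num)]
  have hA0 : A ≠ 0 := by
    intro h
    rw [h, wronskian_zero_left] at hw0
    exact hw0 rfl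
  have hB0 : B ≠ 0 := by
    intro h
    rw [h, wronskian_zero_right] at hw0
    exact hw0 rfl
  have hAB : A ^ 2 + B ^ 2 ≠ 0 := by
    intro h
    have h1 := natDegree_sq_add_sq A B hB0
    have h2 : ∀ x, A.eval x ^ 2 + B.eval x ^ 2 = 0 := by
      intro x
      have := congrArg (eval x) h
      simpa using this
    apply hB0
    apply Polynomial.funext
    intro x
    have h3 := h2 x
    have : B.eval x ^ 2 = 0 := by nlinarith [sq_nonneg (A.eval x), sq_nonneg (B.eval x)]
    simpa using this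
  have heq : C (-2) * (V ^ 2 * (1 - X ^ 4)) = A * B * (A ^ 2 + B ^ 2) := by
    rw [eqn, hA, hB]
    simp only [C_neg, map_ofNat]
    ring
  have hV0 : V ≠ 0 := by
    rintro rfl
    have h1 : A * B * (A ^ 2 + B ^ 2) = 0 := by
      rw [← heq]
      ring
    exact mul_ne_zero (mul_ne_zero hA0 hB0) hAB h1
  have hD0 : (1 - X ^ 4 : ℝ[X]) ≠ 0 := by
    intro h
    have := natDegree_one_sub_X4
    rw [h] at this
    simp at this
  have hdeg : 2 * V.natDegree + 4 = A.natDegree + B.natDegree +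
      2 * max A.natDegree B.natDegree := by
    have := congrArg natDegree heq
    rw [natDegree_C_mul (by norm_num), natDegree_mul (pow_ne_zero _ hV0) hD0, natDegree_pow,
      natDegree_one_sub_X4, natDegree_mul (mul_ne_zero hA0 hB0) hAB, natDegree_mul hA0 hB0,
      natDegree_sq_add_sq A B hB0] at this
    exact this
  rw [← hwd]
  have hlt := natDegree_wronskian_lt_add hw0
  rcases lt_trichotomy A.natDegree B.natDegree with h | h | h
  · rw [max_eq_right h.le] at hdeg
    omega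
  · rw [h, max_self] at hdeg
    -- cancel the leading terms
    set c := A.leadingCoeff / B.leadingCoeff with hc
    set A1 := A - C c * B with hA1
    have hw1 : wronskian A1 B = wronskian A B := by
      rw [hA1]
      simp only [wronskian, derivative_sub, derivative_mul, derivative_C]
      ring
    have hA10 : A1 ≠ 0 := by
      intro h0
      rw [h0, wronskian_zero_left] at hw1
      exact hw0 hw1.symm
    have hlt1 : A1.natDegree < B.natDegree := by
      have hcB : (C c * B).natDegree = B.natDegree := by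
        rw [natDegree_C_mul]
        rw [hc]
        exact div_ne_zero (leadingCoeff_ne_zero.2 hA0) (leadingCoeff_ne_zero.2 hB0)
      have hle : A1.natDegree ≤ B.natDegree := by
        refine (natDegree_sub_le _ _).trans ?_
        rw [hcB, h, max_self]
      rcases hle.lt_or_eq with h1 | h1
      · exact h1
      · exfalso
        have h2 : A1.coeff B.natDegree = 0 := by
          rw [hA1, coeff_sub, coeff_C_mul, ← h]
          change A.leadingCoeff - c * B.coeff A.natDegree = 0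
          rw [h]
          change A.leadingCoeff - c * B.leadingCoeff = 0
          rw [hc, div_mul_cancel₀ _ (leadingCoeff_ne_zero.2 hB0), sub_self]
        rw [← h1] at h2
        exact hA10 (leadingCoeff_eq_zero.1 h2)
    have hlt2 := natDegree_wronskian_lt_add (hw1 ▸ hw0 : wronskian A1 B ≠ 0)
    rw [hw1] at hlt2
    omega
  · rw [max_eq_left h.le] at hdeg
    omega

theorem squarefree_D : Squarefree (1 - X ^ 4 : ℝ[X]) := by
  have h1 : (X ^ 4 - C (1 : ℝ)).Separable := separable_X_pow_sub_C 1 (by norm_num) one_ne_zero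
  have h2 := h1.squarefree
  have h3 : (1 - X ^ 4 : ℝ[X]) = -(X ^ 4 - C 1) := by
    rw [C_1]
    ring
  rw [h3]
  intro x hx
  apply h2 x
  exact (dvd_neg.1 hx)

theorem exists_sol {Z W : RatFunc ℝ} (h : (1 - RatFunc.X ^ 4) * W ^ 2 = 1 - Z ^ 4)
    (hZ : ∀ c : ℝ, Z ≠ RatFunc.C c) :
    ∃ (P Q V : ℝ[X]) (q : ℝ), Sol P Q V q ∧ Q ≠ 0 ∧
      Z = algebraMap ℝ[X] (RatFunc ℝ) P / algebraMap ℝ[X] (RatFunc ℝ) Q ∧
      W * algebraMap ℝ[X] (RatFunc ℝ) Q ^ 2 = algebraMap ℝ[X] (RatFunc ℝ) V := by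
  classical
  set P := Z.num with hP
  set Q := Z.denom with hQ
  have hQ0 : Q ≠ 0 := Z.denom_ne_zero
  have hcop : IsCoprime P Q := Z.isCoprime_num_denom
  have hZe : Z = algebraMap ℝ[X] (RatFunc ℝ) P / algebraMap ℝ[X] (RatFunc ℝ) Q :=
    (Z.num_div_denom).symm
  have hinj := IsFractionRing.injective ℝ[X] (RatFunc ℝ)
  have hQne : algebraMap ℝ[X] (RatFunc ℝ) Q ≠ 0 := by
    simpa using hQ0
  set D : ℝ[X] := 1 - X ^ 4 with hD
  have hD0 : D ≠ 0 := by
    intro h0
    have := natDegree_one_sub_X4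
    rw [← hD, h0] at this
    simp at this
  have hDe : algebraMap ℝ[X] (RatFunc ℝ) D = 1 - RatFunc.X ^ 4 := by
    simp [hD]
  have hDne : algebraMap ℝ[X] (RatFunc ℝ) D ≠ 0 := by
    simpa using hD0
  set V0 := W * algebraMap ℝ[X] (RatFunc ℝ) Q ^ 2 with hV0
  have h1 : algebraMap ℝ[X] (RatFunc ℝ) D * V0 ^ 2 =
      algebraMap ℝ[X] (RatFunc ℝ) (Q ^ 4 - P ^ 4) := by
    rw [hDe, hV0, mul_pow, ← mul_assoc, h, hZe]
    simp only [map_sub, map_pow]
    field_simp
  obtain ⟨u, hu⟩ : ∃ u : ℝ[X], algebraMap ℝ[X] (RatFunc ℝ) u =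
      algebraMap ℝ[X] (RatFunc ℝ) D * V0 := by
    apply IsIntegrallyClosed.exists_algebraMap_eq_of_isIntegral_pow (n := 2) two_pos
    have : (algebraMap ℝ[X] (RatFunc ℝ) D * V0) ^ 2 =
        algebraMap ℝ[X] (RatFunc ℝ) (D * (Q ^ 4 - P ^ 4)) := by
      rw [map_mul, ← h1]
      ring
    rw [this]
    exact isIntegral_algebraMap
  have hu2 : u ^ 2 = D * (Q ^ 4 - P ^ 4) := by
    apply hinj
    rw [map_pow, hu, map_mul, ← h1]
    ring
  obtain ⟨V, hV⟩ : D ∣ u := (squarefree_D.dvd_pow_iff_dvd two_ne_zero).1 ⟨_, hu2⟩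
  have hVe : algebraMap ℝ[X] (RatFunc ℝ) V = V0 := by
    rw [hV, map_mul] at hu
    exact mul_left_cancel₀ hDne hu
  have heqn : V ^ 2 * (1 - X ^ 4) = Q ^ 4 - P ^ 4 := by
    apply hinj
    rw [← hD, mul_comm, map_mul, map_pow, hVe, h1]
  -- the Wronskian
  set J := derivative P * Q - P * derivative Q with hJ
  have hJ0 : J ≠ 0 := by
    intro h0
    have h2 : wronskian P Q = 0 := by
      rw [wronskian]
      linear_combination -h0
    obtain ⟨h3, h4⟩ := hcop.wronskian_eq_zero_iff.1 h2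
    have h5 := derivative_eq_zero.1 h3
    have h6 := derivative_eq_zero.1 h4
    apply hZ (P.coeff 0 / Q.coeff 0)
    rw [hZe, eq_C_of_natDegree_eq_zero h5, eq_C_of_natDegree_eq_zero h6]
    simp [RatFunc.algebraMap_C]
  have hd := congrArg derivative heqn
  have hd' : 2 * V * derivative V * (1 - X ^ 4) - 4 * X ^ 3 * V ^ 2 =
      4 * Q ^ 3 * derivative Q - 4 * P ^ 3 * derivative P := by
    simp only [derivative_mul, derivative_sub, derivative_pow, derivative_X, derivative_one,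
      map_natCast] at hd
    push_cast at hd
    norm_num at hd
    linear_combination hd
  have hVJ : V ∣ J := by
    have e1 : V ∣ C 4 * (J * P ^ 3) := by
      refine ⟨4 * derivative Q * V * (1 - X ^ 4) -
        Q * (2 * derivative V * (1 - X ^ 4) - 4 * X ^ 3 * V), ?_⟩
      simp only [hJ, map_ofNat]
      linear_combination (Q) * hd' - 4 * derivative Q * heqn
    have e2 : V ∣ C 4 * (J * Q ^ 3) := by
      refine ⟨4 * derivative P * V * (1 - X ^ 4) -
        P * (2 * derivative V * (1 - X ^ 4) - 4 * X ^ 3 * V), ?_⟩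
      simp only [hJ, map_ofNat]
      linear_combination (P) * hd' - 4 * derivative P * heqn
    have hu4 : IsUnit (C (4 : ℝ)) := by simp
    rw [hu4.dvd_mul_left] at e1 e2
    obtain ⟨a, b, hab⟩ := (hcop.pow : IsCoprime (P ^ 3) (Q ^ 3))
    have : J = a * (J * P ^ 3) + b * (J * Q ^ 3) := by
      linear_combination (-J) * hab
    rw [this]
    exact dvd_add (e1.mul_left _) (e2.mul_left _)
  obtain ⟨qq, hqq⟩ := hVJ
  have hV0' : V ≠ 0 := by
    rintro rfl
    apply hJ0
    rw [hqq, zero_mul]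
  have hqq0 : qq ≠ 0 := by
    rintro rfl
    apply hJ0
    rw [hqq, mul_zero]
  have hle := natDegree_wr_le heqn hJ0
  rw [← hJ, hqq, natDegree_mul hV0' hqq0] at hle
  have hqc : qq.natDegree = 0 := by omega
  refine ⟨P, Q, V, qq.coeff 0, ⟨hcop, heqn, ?_, hV0', ?_⟩, hQ0, hZe, hVe.symm⟩
  · rw [← hJ, hqq]
    conv_lhs => rw [eq_C_of_natDegree_eq_zero hqc]
    rw [mul_comm]
  · intro h0
    apply hqq0
    rw [eq_C_of_natDegree_eq_zero hqc, h0, C_0]

theorem nonneg_of_sos {a b : RatFunc ℝ} {E : ℝ[X]}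
    (h : algebraMap ℝ[X] (RatFunc ℝ) E = a ^ 2 + b ^ 2) (x : ℝ) : 0 ≤ E.eval x := by
  set g := a.denom * b.denom with hg
  have hg0 : g ≠ 0 := mul_ne_zero a.denom_ne_zero b.denom_ne_zero
  have hinj := IsFractionRing.injective ℝ[X] (RatFunc ℝ)
  have hne1 : algebraMap ℝ[X] (RatFunc ℝ) a.denom ≠ 0 := by simpa using a.denom_ne_zero
  have hne2 : algebraMap ℝ[X] (RatFunc ℝ) b.denom ≠ 0 := by simpa using b.denom_ne_zero
  have key : E * g ^ 2 = (a.num * b.denom) ^ 2 + (b.num * a.denom) ^ 2 := by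
    apply hinj
    rw [map_mul, h]
    conv_lhs => rw [← a.num_div_denom, ← b.num_div_denom]
    simp only [hg, map_mul, map_pow, map_add]
    field_simp
  have h1 : ∀ y, g.eval y ≠ 0 → 0 ≤ E.eval y := by
    intro y hy
    have h2 := congrArg (eval y) key
    simp only [eval_mul, eval_pow, eval_add] at h2
    have h3 : 0 < g.eval y ^ 2 := by positivity
    have h4 : 0 ≤ E.eval y * g.eval y ^ 2 := by
      rw [h2]
      positivity
    exact nonneg_of_mul_nonneg_left h4 h3
  have hfin : {y | g.eval y = 0}.Finite := by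
    have : {y | g.eval y = 0} = (g.roots.toFinset : Set ℝ) := by
      ext y
      simp [hg0]
    rw [this]
    exact Finset.finite_toSet _
  have hev : ∀ᶠ y in 𝓝[≠] x, 0 ≤ E.eval y := by
    have hS : ({y | g.eval y = 0} \ {x})ᶜ ∈ 𝓝 x :=
      ((hfin.subset Set.sdiff_subset).isClosed.isOpen_compl).mem_nhds (by simp)
    have h3 : ({y | g.eval y = 0} \ {x})ᶜ ∈ 𝓝[≠] x := nhdsWithin_le_nhds hS
    filter_upwards [h3, self_mem_nhdsWithin] with y hy1 hy2
    apply h1
    intro hy3
    exact hy1 ⟨hy3, hy2⟩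
  have hcont : Tendsto (fun y => E.eval y) (𝓝[≠] x) (𝓝 (E.eval x)) :=
    E.continuous.continuousAt.tendsto.mono_left nhdsWithin_le_nhds
  exact ge_of_tendsto hcont hev

theorem sum_sq_eq_zero {a b : RatFunc ℝ} (h : a ^ 2 + b ^ 2 = 0) : a = 0 ∧ b = 0 := by
  have hb : ∀ b : RatFunc ℝ, b ≠ 0 → ∀ a, a ^ 2 + b ^ 2 ≠ 0 := by
    intro b hb a h
    have h1 : algebraMap ℝ[X] (RatFunc ℝ) (-1) = (a / b) ^ 2 + 0 ^ 2 := by
      rw [map_neg, map_one]
      field_simp
      linear_combination -h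
    have := nonneg_of_sos h1 0
    simp at this
    linarith
  constructor
  · by_contra ha
    exact hb a ha b (by rw [← h]; ring)
  · by_contra hb'
    exact hb b hb' a h

theorem one_sub_X_sq_ne : (1 - RatFunc.X ^ 2 : RatFunc ℝ) ≠ 0 := by
  have h1 : (1 - X ^ 2 : ℝ[X]) ≠ 0 := by
    intro h
    have := congrArg (eval 0) h
    simp at this
  have h2 : (1 - RatFunc.X ^ 2 : RatFunc ℝ) = algebraMap ℝ[X] (RatFunc ℝ) (1 - X ^ 2) := by simp
  rw [h2]
  exact (map_ne_zero_iff _ (IsFractionRing.injective ℝ[X] (RatFunc ℝ))).2 h1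

theorem sound {Z W H a b : RatFunc ℝ} {ν γ : ℝ}
    (h1 : (1 - RatFunc.X ^ 4) * W ^ 2 = 1 - Z ^ 4)
    (h2 : H * (1 - RatFunc.X ^ 2) = 1 - Z ^ 2)
    (h3 : RatFunc.C γ * (RatFunc.X - 1) ^ 2 * (1 + H) ^ 2 =
      (1 + RatFunc.X ^ 2) * (RatFunc.C ν ^ 2 - H) ^ 2 + (a ^ 2 + b ^ 2)) :
    ∃ m : ℤ, ν = m := by
  by_cases hZ : ∃ c : ℝ, Z = RatFunc.C c
  · -- constant `Z`
    obtain ⟨c, rfl⟩ := hZ
    have hH : H * (1 - RatFunc.X ^ 2) = RatFunc.C (1 - c ^ 2) := by
      rw [h2]
      simp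
    -- `1 - c ^ 4` times the square of a rational function is `1 - X ^ 4` ...
    have hc : 1 - c ^ 2 = 0 := by
      by_contra hc
      have hc4 : (1 - c ^ 4) ≠ 0 := by
        have : 1 - c ^ 4 = (1 - c ^ 2) * (1 + c ^ 2) := by ring
        rw [this]
        exact mul_ne_zero hc (by positivity)
      -- integrality
      have hinj := IsFractionRing.injective ℝ[X] (RatFunc ℝ)
      have hDe : algebraMap ℝ[X] (RatFunc ℝ) (1 - X ^ 4) = 1 - RatFunc.X ^ 4 := by simp
      have h4 : ((1 - RatFunc.X ^ 4) * W) ^ 2 =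
          algebraMap ℝ[X] (RatFunc ℝ) ((1 - X ^ 4) * C (1 - c ^ 4)) := by
        rw [map_mul, hDe, mul_pow, sq (1 - RatFunc.X ^ 4), mul_assoc, h1, RatFunc.algebraMap_C]
        simp
      obtain ⟨u, hu⟩ : ∃ u : ℝ[X], algebraMap ℝ[X] (RatFunc ℝ) u =
          (1 - RatFunc.X ^ 4) * W := by
        apply IsIntegrallyClosed.exists_algebraMap_eq_of_isIntegral_pow (n := 2) two_pos
        rw [h4]
        exact isIntegral_algebraMap
      have hu2 : u ^ 2 = (1 - X ^ 4) * C (1 - c ^ 4) := by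
        apply hinj
        rw [map_pow, hu, h4]
      obtain ⟨v, hv⟩ := (squarefree_D.dvd_pow_iff_dvd two_ne_zero).1 ⟨_, hu2⟩
      have hD0 : (1 - X ^ 4 : ℝ[X]) ≠ 0 := by
        intro h
        have := natDegree_one_sub_X4
        rw [h] at this
        simp at this
      have h5 : (1 - X ^ 4) * v ^ 2 = C (1 - c ^ 4) := by
        apply mul_left_cancel₀ hD0
        rw [← hu2, hv]
        ring
      have h6 := congrArg (eval 1) h5
      simp at h6
      exact hc4 h6.symm
    rw [hc, map_zero] at hH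
    have hH0 : H = 0 := (mul_eq_zero.1 hH).resolve_right one_sub_X_sq_ne
    rw [hH0] at h3
    have h4 : algebraMap ℝ[X] (RatFunc ℝ) (C γ * (X - 1) ^ 2 - (1 + X ^ 2) * C ν ^ 4) =
        a ^ 2 + b ^ 2 := by
      simp only [map_sub, map_mul, map_pow, map_add, map_one, RatFunc.algebraMap_C,
        RatFunc.algebraMap_X]
      linear_combination h3
    have h5 := nonneg_of_sos h4 1
    simp at h5
    have h6 : 0 ≤ ν ^ 4 := by positivity
    have h7 : ν ^ 4 = 0 := by nlinarith
    refine ⟨0, ?_⟩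
    simpa using h7
  · push Not at hZ
    obtain ⟨P, Q, V, q, hsol, hQ0, hZe, hWe⟩ := exists_sol h1 hZ
    obtain ⟨m, hm⟩ := hsol.q_int
    obtain ⟨hV1, hP1⟩ := hsol.at_one
    have hQ1 := hsol.Q_ne (x := 1) (by norm_num) (by norm_num)
    have hQne : algebraMap ℝ[X] (RatFunc ℝ) Q ≠ 0 := by simpa using hQ0
    set ι := algebraMap ℝ[X] (RatFunc ℝ) with hι
    have hXe : ι X = RatFunc.X := RatFunc.algebraMap_X
    -- `H = N / M`
    have hsum : (ι Q ^ 2 + ι P ^ 2) ≠ 0 := by
      intro h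
      exact hQne (sum_sq_eq_zero h).1
    have hH : H * (ι Q ^ 2 * (ι Q ^ 2 + ι P ^ 2)) = (1 + RatFunc.X ^ 2) * ι V ^ 2 := by
      have e1 : ι V ^ 2 * (1 - RatFunc.X ^ 4) = ι Q ^ 4 - ι P ^ 4 := by
        have := congrArg ι hsol.eqn
        simpa [hι] using this
      have e2 : H * (1 - RatFunc.X ^ 2) * ι Q ^ 2 = ι Q ^ 2 - ι P ^ 2 := by
        rw [h2, hZe]
        field_simp
      apply mul_left_cancel₀ one_sub_X_sq_ne
      linear_combination (ι Q ^ 2 + ι P ^ 2) * e2 - e1
    set M : ℝ[X] := Q ^ 2 * (Q ^ 2 + P ^ 2) with hM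
    set N : ℝ[X] := (1 + X ^ 2) * V ^ 2 with hN
    have hHM : H * ι M = ι N := by
      simp only [hM, hN, map_mul, map_pow, map_add, map_one, hXe]
      exact hH
    have h4 : ι (C γ * (X - 1) ^ 2 * (M + N) ^ 2 - (1 + X ^ 2) * (C ν ^ 2 * M - N) ^ 2) =
        (a * ι M) ^ 2 + (b * ι M) ^ 2 := by
      have eC : ∀ r : ℝ, ι (C r) = RatFunc.C r := fun r => RatFunc.algebraMap_C r
      simp only [map_sub, map_mul, map_pow, map_add, map_one, eC, hXe]
      rw [← hHM]
      linear_combination (ι M ^ 2) * h3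
    have h5 := nonneg_of_sos h4 1
    simp only [eval_sub, eval_mul, eval_pow, eval_add, eval_C, eval_X, eval_one, sub_self] at h5
    have h6 : (ν ^ 2 * M.eval 1 - N.eval 1) ^ 2 = 0 := by
      nlinarith [sq_nonneg (ν ^ 2 * M.eval 1 - N.eval 1)]
    have h7 : ν ^ 2 * M.eval 1 = N.eval 1 := by
      have := pow_eq_zero_iff (two_ne_zero) |>.1 h6
      linarith
    have h8 : M.eval 1 = 2 * Q.eval 1 ^ 4 := by
      simp only [hM, eval_mul, eval_pow, eval_add]
      rw [hP1]
      ring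
    have h9 : N.eval 1 = 2 * (q ^ 2 * Q.eval 1 ^ 4) := by
      simp only [hN, eval_mul, eval_pow, eval_add, eval_X, eval_one]
      rw [hV1]
      ring
    rw [h8, h9] at h7
    have h10 : Q.eval 1 ^ 4 ≠ 0 := pow_ne_zero _ hQ1
    have h11 : ν ^ 2 = q ^ 2 := by
      apply mul_right_cancel₀ h10
      linarith
    rcases sq_eq_sq_iff_eq_or_eq_neg.1 h11 with h12 | h12
    · exact ⟨m, by rw [h12, hm]⟩
    · exact ⟨-m, by rw [h12, hm]; push_cast; ring⟩

end

end Pool.Agent.H699R2
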