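import Mathlib

open Filter Topology Polynomial MeasureTheory

namespace Pool.Agent.H699R2

noncomputable section

/-- the integral `∫_0^φ dτ / √(1 + sin² τ)` -/
def psi (φ : ℝ) : ℝ := ∫ τ in (0 : ℝ)..φ, 1 / Real.sqrt (1 + Real.sin τ ^ 2)

theorem psi_cont_integrand : Continuous fun τ : ℝ => 1 / Real.sqrt (1 + Real.sin τ ^ 2) := by
  refine continuous_const.div (by fun_prop) fun τ => ?_
  have : 0 < 1 + Real.sin τ ^ 2 := by positivity
  exact (Real.sqrt_pos.2 this).ne'

theorem hasDerivAt_psi (φ : ℝ) : HasDerivAt psi (1 / Real.sqrt (1 + Real.sin φ ^ 2)) φ := by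
  unfold psi
  exact intervalIntegral.integral_hasDerivAt_right (psi_cont_integrand.intervalIntegrable _ _)
    psi_cont_integrand.stronglyMeasurable.stronglyMeasurableAtFilter
    psi_cont_integrand.continuousAt

/-- the arc length function of the lemniscate -/
def arcl (x : ℝ) : ℝ := psi (Real.arcsin x)

theorem continuous_arcl : Continuous arcl :=
  (continuous_iff_continuousAt.2 fun φ => (hasDerivAt_psi φ).continuousAt).comp
    Real.continuous_arcsin

theorem hasDerivAt_arcl {x : ℝ} (h1 : -1 < x) (h2 : x < 1) :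
    HasDerivAt arcl (1 / Real.sqrt (1 - x ^ 4)) x := by
  have h := (hasDerivAt_psi (Real.arcsin x)).comp x (Real.hasDerivAt_arcsin h1.ne' h2.ne)
  have e : 1 / Real.sqrt (1 + Real.sin (Real.arcsin x) ^ 2) * (1 / Real.sqrt (1 - x ^ 2)) =
      1 / Real.sqrt (1 - x ^ 4) := by
    rw [Real.sin_arcsin h1.le h2.le, div_mul_div_comm, one_mul, ← Real.sqrt_mul (by positivity)]
    congr 2
    ring
  rw [e] at h
  exact h

theorem arcl_lt : arcl (-1) < arcl 1 := by
  have hmono : StrictMono psi := by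
    apply strictMono_of_deriv_pos
    intro φ
    rw [(hasDerivAt_psi φ).deriv]
    have : 0 < 1 + Real.sin φ ^ 2 := by positivity
    positivity
  unfold arcl
  apply hmono
  exact Real.strictMonoOn_arcsin (by simp) (by simp) (by norm_num)

/-- Data of a solution `z = P / Q` of `(1 - x ^ 4) w ^ 2 = 1 - z ^ 4` with `w = V / Q ^ 2` and
`z' = q w`. -/
structure Sol (P Q V : ℝ[X]) (q : ℝ) : Prop where
  cop : IsCoprime P Q
  eqn : V ^ 2 * (1 - X ^ 4) = Q ^ 4 - P ^ 4
  wr : derivative P * Q - P * derivative Q = C q * V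
  V0 : V ≠ 0
  q0 : q ≠ 0

namespace Sol

variable {P Q V : ℝ[X]} {q : ℝ} (h : Sol P Q V q)
include h

theorem eqn_eval (x : ℝ) : V.eval x ^ 2 * (1 - x ^ 4) = Q.eval x ^ 4 - P.eval x ^ 4 := by
  have := congrArg (eval x) h.eqn
  simpa using this

theorem wr_eval (x : ℝ) : (derivative P).eval x * Q.eval x - P.eval x * (derivative Q).eval x =
    q * V.eval x := by
  have := congrArg (eval x) h.wr
  simpa using this

theorem not_both (x : ℝ) (h1 : P.eval x = 0) (h2 : Q.eval x = 0) : False := by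
  obtain ⟨a, b, hab⟩ := h.cop
  have := congrArg (eval x) hab
  simp [h1, h2] at this

theorem Q_ne {x : ℝ} (h1 : -1 ≤ x) (h2 : x ≤ 1) : Q.eval x ≠ 0 := by
  intro hQ
  have h3 := h.eqn_eval x
  have h4 : x ^ 4 ≤ 1 := by
    have : x ^ 2 ≤ 1 := by nlinarith
    nlinarith [sq_nonneg (x ^ 2)]
  have h5 : 0 ≤ V.eval x ^ 2 * (1 - x ^ 4) := mul_nonneg (sq_nonneg _) (by linarith)
  rw [h3, hQ] at h5
  have h6 : P.eval x ^ 4 = 0 := by
    have : 0 ≤ P.eval x ^ 4 := by positivity
    nlinarith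
  exact h.not_both x (by simpa using h6) hQ

/-- the function `z` -/
theorem hasDeriv {x : ℝ} (h1 : -1 ≤ x) (h2 : x ≤ 1) :
    HasDerivAt (fun x => P.eval x / Q.eval x) (q * V.eval x / Q.eval x ^ 2) x := by
  have := (P.hasDerivAt x).div (Q.hasDerivAt x) (h.Q_ne h1 h2)
  rw [h.wr_eval x] at this
  exact this

theorem z_eq {x : ℝ} (h1 : -1 ≤ x) (h2 : x ≤ 1) :
    1 - (P.eval x / Q.eval x) ^ 4 = V.eval x ^ 2 * (1 - x ^ 4) / Q.eval x ^ 4 := by
  have := h.Q_ne h1 h2
  rw [h.eqn_eval x]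
  field_simp

theorem V_ne_of {x : ℝ} (h1 : -1 ≤ x) (h2 : x ≤ 1)
    (hx : (P.eval x / Q.eval x) ^ 4 ≠ 1) : V.eval x ≠ 0 := by
  intro hV
  apply hx
  have := h.z_eq h1 h2
  rw [hV] at this
  simp at this
  linarith

/-- no intermediate point with `z ^ 4 = 1` -/
theorem base_case {a b : ℝ} (ha : -1 ≤ a) (hab : a < b) (hb : b ≤ 1)
    (hza : (P.eval a / Q.eval a) ^ 4 = 1) (hzb : (P.eval b / Q.eval b) ^ 4 = 1)
    (hno : ∀ x, a < x → x < b → (P.eval x / Q.eval x) ^ 4 ≠ 1) :
    ∃ m : ℤ, q * (arcl b - arcl a) = m * (arcl 1 - arcl (-1)) := by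
  set z : ℝ → ℝ := fun x => P.eval x / Q.eval x with hz
  have hcont : ContinuousOn z (Set.Icc a b) := by
    intro x hx
    exact (h.hasDeriv (ha.trans hx.1) (hx.2.trans hb)).continuousAt.continuousWithinAt
  have hV : ∀ x ∈ Set.Ioo a b, V.eval x ≠ 0 := fun x hx =>
    h.V_ne_of (ha.trans hx.1.le) (hx.2.le.trans hb) (hno x hx.1 hx.2)
  -- constant sign of `V`
  obtain ⟨σ, hσ1, hσ⟩ : ∃ σ : ℝ, σ ^ 2 = 1 ∧ ∀ x ∈ Set.Ioo a b, V.eval x = σ * |V.eval x| := by
    have hpre : IsPreconnected (Set.Ioo a b) := isPreconnected_Ioo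
    have hVc : ContinuousOn (fun x => V.eval x) (Set.Ioo a b) := V.continuous.continuousOn
    set c := (a + b) / 2 with hc
    have hcmem : c ∈ Set.Ioo a b := ⟨by rw [hc]; linarith, by rw [hc]; linarith⟩
    rcases lt_or_gt_of_ne (hV c hcmem) with h1 | h1
    · refine ⟨-1, by norm_num, fun x hx => ?_⟩
      have : V.eval x < 0 := by
        by_contra hcon
        push Not at hcon
        have h2 := hpre.intermediate_value hcmem hx hVc
        obtain ⟨y, hy1, hy2⟩ := h2 ⟨h1.le, hcon⟩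
        exact hV y hy1 hy2
      rw [abs_of_neg this]
      ring
    · refine ⟨1, by norm_num, fun x hx => ?_⟩
      have : 0 < V.eval x := by
        by_contra hcon
        push Not at hcon
        have h2 := hpre.intermediate_value hx hcmem hVc
        obtain ⟨y, hy1, hy2⟩ := h2 ⟨hcon, h1.le⟩
        exact hV y hy1 hy2
      rw [abs_of_pos this]
      ring
  -- bounds on `z`
  have hzb4 : ∀ x ∈ Set.Ioo a b, z x ^ 4 < 1 := by
    intro x hx
    have h1 := h.z_eq (ha.trans hx.1.le) (hx.2.le.trans hb)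
    have hx1 : -1 < x := lt_of_le_of_lt ha hx.1
    have hx2 : x < 1 := lt_of_lt_of_le hx.2 hb
    have h2 : x ^ 4 < 1 := by
      have : x ^ 2 < 1 := by nlinarith
      nlinarith [sq_nonneg (x ^ 2), sq_nonneg x]
    have h3 : 0 < V.eval x ^ 2 * (1 - x ^ 4) / Q.eval x ^ 4 := by
      have h4 := hV x hx
      have h5 := h.Q_ne hx1.le hx2.le
      have h6 : 0 < 1 - x ^ 4 := by linarith
      have h7 : 0 < V.eval x ^ 2 := by positivity
      have h8 : 0 < Q.eval x ^ 4 := by positivity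
      positivity
    rw [← h1] at h3
    have : z x ^ 4 = (P.eval x / Q.eval x) ^ 4 := rfl
    linarith
  have hz1 : ∀ x ∈ Set.Ioo a b, -1 < z x ∧ z x < 1 := by
    intro x hx
    have h1 := hzb4 x hx
    rw [← abs_lt, ← sq_lt_one_iff_abs_lt_one]
    nlinarith [sq_nonneg (z x)]
  -- the constant function
  set g : ℝ → ℝ := fun x => arcl (z x) - q * σ * arcl x with hg
  have hgc : ContinuousOn g (Set.Icc a b) :=
    (continuous_arcl.comp_continuousOn hcont).sub
      (continuousOn_const.mul continuous_arcl.continuousOn)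
  have hgd : ∀ x ∈ Set.Ioo a b, HasDerivAt g 0 x := by
    intro x hx
    have hx1 : -1 < x := lt_of_le_of_lt ha hx.1
    have hx2 : x < 1 := lt_of_lt_of_le hx.2 hb
    have h1 := (hasDerivAt_arcl (hz1 x hx).1 (hz1 x hx).2).comp x (h.hasDeriv hx1.le hx2.le)
    have h2 := (hasDerivAt_arcl hx1 hx2).const_mul (q * σ)
    have h3 := h1.sub h2
    have e : 1 / Real.sqrt (1 - z x ^ 4) * (q * V.eval x / Q.eval x ^ 2) -
        q * σ * (1 / Real.sqrt (1 - x ^ 4)) = 0 := by
      have hQ := h.Q_ne hx1.le hx2.le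
      have h4 : x ^ 4 < 1 := by
        have : x ^ 2 < 1 := by nlinarith
        nlinarith [sq_nonneg (x ^ 2), sq_nonneg x]
      have h5 : Real.sqrt (1 - z x ^ 4) = |V.eval x| * Real.sqrt (1 - x ^ 4) / Q.eval x ^ 2 := by
        have h6 : 1 - z x ^ 4 = (|V.eval x| * Real.sqrt (1 - x ^ 4) / Q.eval x ^ 2) ^ 2 := by
          have h7 := h.z_eq hx1.le hx2.le
          have h8 : z x ^ 4 = (P.eval x / Q.eval x) ^ 4 := rfl
          rw [h8, h7, div_pow, mul_pow, sq_abs, Real.sq_sqrt (by linarith)]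
          ring
        rw [h6, Real.sqrt_sq (by positivity)]
      have hs : 0 < Real.sqrt (1 - x ^ 4) := Real.sqrt_pos.2 (by linarith)
      have hVx := abs_pos.2 (hV x hx)
      rw [h5, hσ x hx, abs_mul, abs_abs]
      have hσa : |σ| = 1 := by
        rw [← sq_abs] at hσ1
        nlinarith [abs_nonneg σ]
      rw [hσa, one_mul]
      field_simp
      ring
    rw [e] at h3
    exact h3
  have hconst : g b = g a := by
    obtain ⟨c, hc, hc2⟩ := exists_deriv_eq_slope g hab hgc
      (fun x hx => (hgd x hx).differentiableAt.differentiableWithinAt)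
    rw [(hgd c hc).deriv] at hc2
    have h1 : b - a ≠ 0 := by linarith
    have h2 : 0 * (b - a) = g b - g a := by
      rw [hc2]
      field_simp
    linarith
  -- `z a ≠ z b`
  have hne : z a ≠ z b := by
    intro heq
    obtain ⟨c, hc, hc2⟩ := exists_hasDerivAt_eq_zero hab hcont heq
      (fun x hx => h.hasDeriv (ha.trans hx.1.le) (hx.2.le.trans hb))
    have hc3 := hV c hc
    have hc4 := h.Q_ne (ha.trans hc.1.le) (hc.2.le.trans hb)
    have := h.q0
    have h5 : q * V.eval c / Q.eval c ^ 2 ≠ 0 := by positivity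
    exact h5 hc2
  have hpm : ∀ y : ℝ, y ^ 4 = 1 → y = 1 ∨ y = -1 := by
    intro y hy
    have h1 : (y ^ 2 - 1) * (y ^ 2 + 1) = 0 := by linear_combination hy
    have h2 : y ^ 2 + 1 ≠ 0 := by positivity
    have h3 : y ^ 2 - 1 = 0 := (mul_eq_zero.1 h1).resolve_right h2
    have h4 : (y - 1) * (y + 1) = 0 := by linear_combination h3
    rcases mul_eq_zero.1 h4 with h5 | h5
    · left; linarith
    · right; linarith
  have hσ2 : σ = 1 ∨ σ = -1 := hpm σ (by nlinarith)
  have hmain : q * σ * (arcl b - arcl a) = arcl (z b) - arcl (z a) := by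
    simp only [hg] at hconst
    linarith
  rcases hpm _ hza with h1 | h1 <;> rcases hpm _ hzb with h2 | h2
  · exact absurd (h1.trans h2.symm) hne
  · have e1 : z a = 1 := h1
    have e2 : z b = -1 := h2
    rw [e1, e2] at hmain
    rcases hσ2 with h3 | h3
    · refine ⟨-1, ?_⟩
      rw [h3] at hmain
      push_cast
      linarith
    · refine ⟨1, ?_⟩
      rw [h3] at hmain
      push_cast
      linarith
  · have e1 : z a = -1 := h1
    have e2 : z b = 1 := h2
    rw [e1, e2] at hmain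
    rcases hσ2 with h3 | h3
    · refine ⟨1, ?_⟩
      rw [h3] at hmain
      push_cast
      linarith
    · refine ⟨-1, ?_⟩
      rw [h3] at hmain
      push_cast
      linarith
  · exact absurd (h1.trans h2.symm) hne

theorem QP_ne : Q ^ 4 - P ^ 4 ≠ 0 := by
  rw [← h.eqn]
  apply mul_ne_zero (pow_ne_zero _ h.V0)
  intro h0
  have := congrArg (eval 0) h0
  simp at this

theorem root_of {x : ℝ} (h1 : -1 ≤ x) (h2 : x ≤ 1) (hx : (P.eval x / Q.eval x) ^ 4 = 1) :
    x ∈ (Q ^ 4 - P ^ 4).roots.toFinset := by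
  rw [Multiset.mem_toFinset, mem_roots h.QP_ne]
  have hQ := h.Q_ne h1 h2
  have h3 : P.eval x ^ 4 = Q.eval x ^ 4 := by
    rw [div_pow, div_eq_one_iff_eq (pow_ne_zero _ hQ)] at hx
    exact hx
  simp [h3]

theorem general_case (n : ℕ) : ∀ {a b : ℝ}, -1 ≤ a → a < b → b ≤ 1 →
    (P.eval a / Q.eval a) ^ 4 = 1 → (P.eval b / Q.eval b) ^ 4 = 1 →
    ((Q ^ 4 - P ^ 4).roots.toFinset.filter (fun x => a < x ∧ x < b)).card ≤ n →
    ∃ m : ℤ, q * (arcl b - arcl a) = m * (arcl 1 - arcl (-1)) := by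
  classical
  induction n with
  | zero =>
    intro a b ha hab hb hza hzb hcard
    apply h.base_case ha hab hb hza hzb
    intro x h1 h2 h3
    have h4 : x ∈ (Q ^ 4 - P ^ 4).roots.toFinset.filter (fun x => a < x ∧ x < b) := by
      rw [Finset.mem_filter]
      exact ⟨h.root_of (by linarith) (by linarith) h3, h1, h2⟩
    have h5 := Finset.card_pos.2 ⟨x, h4⟩
    omega
  | succ n ih =>
    intro a b ha hab hb hza hzb hcard
    by_cases hex : ∃ x, a < x ∧ x < b ∧ (P.eval x / Q.eval x) ^ 4 = 1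
    · obtain ⟨c, hac, hcb, hc⟩ := hex
      have hcm : c ∈ (Q ^ 4 - P ^ 4).roots.toFinset.filter (fun x => a < x ∧ x < b) := by
        rw [Finset.mem_filter]
        exact ⟨h.root_of (by linarith) (by linarith) hc, hac, hcb⟩
      have hc1 : ((Q ^ 4 - P ^ 4).roots.toFinset.filter (fun x => a < x ∧ x < c)).card <
          ((Q ^ 4 - P ^ 4).roots.toFinset.filter (fun x => a < x ∧ x < b)).card := by
        apply Finset.card_lt_card
        rw [Finset.ssubset_iff_of_subset]
        · exact ⟨c, hcm, by simp⟩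
        · intro y hy
          rw [Finset.mem_filter] at hy ⊢
          exact ⟨hy.1, hy.2.1, hy.2.2.trans hcb⟩
      have hc2 : ((Q ^ 4 - P ^ 4).roots.toFinset.filter (fun x => c < x ∧ x < b)).card <
          ((Q ^ 4 - P ^ 4).roots.toFinset.filter (fun x => a < x ∧ x < b)).card := by
        apply Finset.card_lt_card
        rw [Finset.ssubset_iff_of_subset]
        · exact ⟨c, hcm, by simp⟩
        · intro y hy
          rw [Finset.mem_filter] at hy ⊢
          exact ⟨hy.1, hac.trans hy.2.1, hy.2.2⟩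
      obtain ⟨m1, hm1⟩ := ih ha hac (by linarith) hza hc (by omega)
      obtain ⟨m2, hm2⟩ := ih (by linarith) hcb hb hc hzb (by omega)
      refine ⟨m1 + m2, ?_⟩
      push_cast
      linarith
    · push Not at hex
      exact h.base_case ha hab hb hza hzb hex

theorem q_int : ∃ m : ℤ, q = m := by
  have h1 : (P.eval 1 / Q.eval 1) ^ 4 = 1 := by
    have := h.z_eq (x := 1) (by norm_num) (by norm_num)
    norm_num at this
    linarith
  have h2 : (P.eval (-1) / Q.eval (-1)) ^ 4 = 1 := by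
    have := h.z_eq (x := -1) (by norm_num) (by norm_num)
    norm_num at this
    linarith
  obtain ⟨m, hm⟩ := h.general_case _ (a := -1) (b := 1) (by norm_num) (by norm_num) (by norm_num)
    h2 h1 le_rfl
  refine ⟨m, ?_⟩
  have h3 : arcl 1 - arcl (-1) ≠ 0 := by
    have := arcl_lt
    linarith
  exact mul_right_cancel₀ h3 hm

/-- the value at `1` -/
theorem at_one : V.eval 1 ^ 2 = q ^ 2 * Q.eval 1 ^ 4 ∧ P.eval 1 ^ 2 = Q.eval 1 ^ 2 := by
  have hQ := h.Q_ne (x := 1) (by norm_num) (by norm_num)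
  have h1 : P.eval 1 ^ 4 = Q.eval 1 ^ 4 := by
    have := h.eqn_eval 1
    norm_num at this
    linarith
  have h2 : P.eval 1 ^ 2 = Q.eval 1 ^ 2 := by
    have h3 : (P.eval 1 ^ 2 - Q.eval 1 ^ 2) * (P.eval 1 ^ 2 + Q.eval 1 ^ 2) = 0 := by
      linear_combination h1
    have h4 : P.eval 1 ^ 2 + Q.eval 1 ^ 2 ≠ 0 := by positivity
    have := (mul_eq_zero.1 h3).resolve_right h4
    linarith
  -- derivative of the equation
  have hd := congrArg derivative h.eqn
  have hkey : V * (4 * C q * P ^ 3) = V * (4 * derivative Q * V * (1 - X ^ 4) -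
      Q * (2 * derivative V * (1 - X ^ 4) - 4 * X ^ 3 * V)) := by
    have hd' : 2 * V * derivative V * (1 - X ^ 4) - 4 * X ^ 3 * V ^ 2 =
        4 * Q ^ 3 * derivative Q - 4 * P ^ 3 * derivative P := by
      simp only [derivative_mul, derivative_sub, derivative_pow, derivative_X, derivative_one,
        map_natCast] at hd
      push_cast at hd
      norm_num at hd
      linear_combination hd
    linear_combination (-4 * P ^ 3) * h.wr + Q * hd' - 4 * derivative Q * h.eqn
  have hcan := mul_left_cancel₀ h.V0 hkey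
  have h5 := congrArg (eval 1) hcan
  simp at h5
  have h6 : Q.eval 1 * V.eval 1 = q * P.eval 1 ^ 3 := by linarith
  refine ⟨?_, h2⟩
  have h7 : Q.eval 1 ^ 2 * V.eval 1 ^ 2 = q ^ 2 * P.eval 1 ^ 6 := by
    calc Q.eval 1 ^ 2 * V.eval 1 ^ 2 = (Q.eval 1 * V.eval 1) ^ 2 := by ring
      _ = q ^ 2 * P.eval 1 ^ 6 := by rw [h6]; ring
  have h8 : P.eval 1 ^ 6 = Q.eval 1 ^ 6 := by
    calc P.eval 1 ^ 6 = (P.eval 1 ^ 2) ^ 3 := by ring
      _ = Q.eval 1 ^ 6 := by rw [h2]; ring
  rw [h8] at h7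
  have h9 : Q.eval 1 ^ 2 ≠ 0 := pow_ne_zero _ hQ
  apply mul_left_cancel₀ h9
  rw [h7]
  ring

end Sol

end

end Pool.Agent.H699R2
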