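import Pool.Agent.H699R2.Mult

open Filter Topology

namespace Pool.Agent.H699R2

noncomputable section

open MvPolynomial (aeval rename)

/-- `S ⊆ ℝ(t)^α` is defined by a polynomial equation over `ℤ[t]` with existentially quantified
auxiliary variables ranging over `ℝ(t)` -/
def TD {α : Type} (S : (α → RatFunc ℝ) → Prop) : Prop :=
  ∃ (β : Type) (_ : Finite β) (p : MvPolynomial (Option (α ⊕ β)) ℤ), ∀ v, S v ↔
    ∃ w : β → RatFunc ℝ, aeval (fun o => o.elim RatFunc.X (Sum.elim v w)) p = 0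

/-- polynomial functions over `ℤ[t]` -/
def PolyF {α : Type} (f : (α → RatFunc ℝ) → RatFunc ℝ) : Prop :=
  ∃ p : MvPolynomial (Option α) ℤ, ∀ v, f v = aeval (fun o => o.elim RatFunc.X v) p

namespace PolyF

variable {α : Type}

theorem var (i : α) : PolyF (fun v : α → RatFunc ℝ => v i) :=
  ⟨MvPolynomial.X (some i), fun v => by simp⟩

theorem T : PolyF (fun _ : α → RatFunc ℝ => RatFunc.X) :=
  ⟨MvPolynomial.X none, fun v => by simp⟩

theorem int (n : ℤ) : PolyF (fun _ : α → RatFunc ℝ => (n : RatFunc ℝ)) :=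
  ⟨MvPolynomial.C n, fun v => by simp⟩

theorem one : PolyF (fun _ : α → RatFunc ℝ => 1) := by
  simpa using int (α := α) 1

theorem zero : PolyF (fun _ : α → RatFunc ℝ => 0) := by
  simpa using int (α := α) 0

theorem add {f g : (α → RatFunc ℝ) → RatFunc ℝ} (hf : PolyF f) (hg : PolyF g) :
    PolyF (fun v => f v + g v) := by
  obtain ⟨p, hp⟩ := hf
  obtain ⟨q, hq⟩ := hg
  exact ⟨p + q, fun v => by simp only [map_add, hp, hq]⟩

theorem mul {f g : (α → RatFunc ℝ) → RatFunc ℝ} (hf : PolyF f) (hg : PolyF g) :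
    PolyF (fun v => f v * g v) := by
  obtain ⟨p, hp⟩ := hf
  obtain ⟨q, hq⟩ := hg
  exact ⟨p * q, fun v => by simp only [map_mul, hp, hq]⟩

theorem sub {f g : (α → RatFunc ℝ) → RatFunc ℝ} (hf : PolyF f) (hg : PolyF g) :
    PolyF (fun v => f v - g v) := by
  obtain ⟨p, hp⟩ := hf
  obtain ⟨q, hq⟩ := hg
  exact ⟨p - q, fun v => by simp only [map_sub, hp, hq]⟩

theorem pow {f : (α → RatFunc ℝ) → RatFunc ℝ} (hf : PolyF f) (n : ℕ) :
    PolyF (fun v => f v ^ n) := by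
  obtain ⟨p, hp⟩ := hf
  exact ⟨p ^ n, fun v => by simp only [map_pow, hp]⟩

end PolyF

namespace TD

variable {α γ : Type}

theorem congr {S S' : (α → RatFunc ℝ) → Prop} (h : TD S) (hS : ∀ v, S v ↔ S' v) : TD S' := by
  obtain ⟨β, hβ, p, hp⟩ := h
  exact ⟨β, hβ, p, fun v => by rw [← hS, hp]⟩

theorem eq {f g : (α → RatFunc ℝ) → RatFunc ℝ} (hf : PolyF f) (hg : PolyF g) :
    TD (fun v => f v = g v) := by
  obtain ⟨p, hp'⟩ := hf.sub hg
  have hp : ∀ v, f v - g v = aeval (fun o => o.elim RatFunc.X v) p := hp'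
  refine ⟨Empty, inferInstance, rename (Option.map Sum.inl) p, fun v => ?_⟩
  have e : ∀ w : Empty → RatFunc ℝ, aeval (fun o => o.elim RatFunc.X (Sum.elim v w))
      (rename (Option.map Sum.inl) p) = f v - g v := by
    intro w
    rw [MvPolynomial.aeval_rename, hp]
    congr 2
    ext o
    cases o <;> rfl
  constructor
  · intro h
    refine ⟨Empty.elim, ?_⟩
    rw [e, h, sub_self]
  · rintro ⟨w, hw⟩
    rw [e] at hw
    exact sub_eq_zero.1 hw

theorem and {S S' : (α → RatFunc ℝ) → Prop} (h : TD S) (h' : TD S') :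
    TD (fun v => S v ∧ S' v) := by
  obtain ⟨β, hβ, p, hp⟩ := h
  obtain ⟨β', hβ', p', hp'⟩ := h'
  refine ⟨β ⊕ β', inferInstance,
    rename (Option.map (Sum.map id Sum.inl)) p ^ 2 +
      rename (Option.map (Sum.map id Sum.inr)) p' ^ 2, fun v => ?_⟩
  have e1 : ∀ w : β ⊕ β' → RatFunc ℝ, aeval (fun o => o.elim RatFunc.X (Sum.elim v w))
      (rename (Option.map (Sum.map id Sum.inl)) p) =
      aeval (fun o => o.elim RatFunc.X (Sum.elim v (w ∘ Sum.inl))) p := by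
    intro w
    rw [MvPolynomial.aeval_rename]
    congr 2
    ext o
    rcases o with _ | (o | o) <;> rfl
  have e2 : ∀ w : β ⊕ β' → RatFunc ℝ, aeval (fun o => o.elim RatFunc.X (Sum.elim v w))
      (rename (Option.map (Sum.map id Sum.inr)) p') =
      aeval (fun o => o.elim RatFunc.X (Sum.elim v (w ∘ Sum.inr))) p' := by
    intro w
    rw [MvPolynomial.aeval_rename]
    congr 2
    ext o
    rcases o with _ | (o | o) <;> rfl
  beta_reduce
  rw [hp, hp']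
  constructor
  · rintro ⟨⟨w, hw⟩, w', hw'⟩
    refine ⟨Sum.elim w w', ?_⟩
    rw [map_add, map_pow, map_pow, e1, e2]
    simp only [Sum.elim_comp_inl, Sum.elim_comp_inr]
    rw [hw, hw']
    simp
  · rintro ⟨w, hw⟩
    rw [map_add, map_pow, map_pow, e1, e2] at hw
    obtain ⟨h1, h2⟩ := sum_sq_eq_zero hw
    exact ⟨⟨_, h1⟩, _, h2⟩

theorem or {S S' : (α → RatFunc ℝ) → Prop} (h : TD S) (h' : TD S') :
    TD (fun v => S v ∨ S' v) := by
  obtain ⟨β, hβ, p, hp⟩ := h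
  obtain ⟨β', hβ', p', hp'⟩ := h'
  refine ⟨β ⊕ β', inferInstance,
    rename (Option.map (Sum.map id Sum.inl)) p *
      rename (Option.map (Sum.map id Sum.inr)) p', fun v => ?_⟩
  have e1 : ∀ w : β ⊕ β' → RatFunc ℝ, aeval (fun o => o.elim RatFunc.X (Sum.elim v w))
      (rename (Option.map (Sum.map id Sum.inl)) p) =
      aeval (fun o => o.elim RatFunc.X (Sum.elim v (w ∘ Sum.inl))) p := by
    intro w
    rw [MvPolynomial.aeval_rename]
    congr 2
    ext o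
    rcases o with _ | (o | o) <;> rfl
  have e2 : ∀ w : β ⊕ β' → RatFunc ℝ, aeval (fun o => o.elim RatFunc.X (Sum.elim v w))
      (rename (Option.map (Sum.map id Sum.inr)) p') =
      aeval (fun o => o.elim RatFunc.X (Sum.elim v (w ∘ Sum.inr))) p' := by
    intro w
    rw [MvPolynomial.aeval_rename]
    congr 2
    ext o
    rcases o with _ | (o | o) <;> rfl
  beta_reduce
  rw [hp, hp']
  constructor
  · rintro (⟨w, hw⟩ | ⟨w, hw⟩)
    · refine ⟨Sum.elim w (fun _ => 0), ?_⟩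
      rw [map_mul, e1]
      simp only [Sum.elim_comp_inl]
      rw [hw, zero_mul]
    · refine ⟨Sum.elim (fun _ => 0) w, ?_⟩
      rw [map_mul, e2]
      simp only [Sum.elim_comp_inr]
      rw [hw, mul_zero]
  · rintro ⟨w, hw⟩
    rw [map_mul, e1, e2] at hw
    rcases mul_eq_zero.1 hw with h1 | h1
    · exact Or.inl ⟨_, h1⟩
    · exact Or.inr ⟨_, h1⟩

theorem ex [Finite γ] {S : (α ⊕ γ → RatFunc ℝ) → Prop} (h : TD S) :
    TD (fun v : α → RatFunc ℝ => ∃ x : γ → RatFunc ℝ, S (Sum.elim v x)) := by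
  obtain ⟨β, hβ, p, hp⟩ := h
  refine ⟨γ ⊕ β, inferInstance, rename (Option.map (Equiv.sumAssoc α γ β)) p, fun v => ?_⟩
  have e : ∀ (x : γ → RatFunc ℝ) (w : β → RatFunc ℝ),
      aeval (fun o => o.elim RatFunc.X (Sum.elim v (Sum.elim x w)))
        (rename (Option.map (Equiv.sumAssoc α γ β)) p) =
      aeval (fun o => o.elim RatFunc.X (Sum.elim (Sum.elim v x) w)) p := by
    intro x w
    rw [MvPolynomial.aeval_rename]
    congr 2
    ext o
    rcases o with _ | ((o | o) | o) <;> rfl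
  constructor
  · rintro ⟨x, hx⟩
    obtain ⟨w, hw⟩ := (hp _).1 hx
    exact ⟨Sum.elim x w, by rw [e, hw]⟩
  · rintro ⟨w, hw⟩
    refine ⟨w ∘ Sum.inl, (hp _).2 ⟨w ∘ Sum.inr, ?_⟩⟩
    rw [← e, Sum.elim_comp_inl_inr, hw]

theorem comp {S : (γ → RatFunc ℝ) → Prop} (h : TD S) {f : γ → (α → RatFunc ℝ) → RatFunc ℝ}
    (hf : ∀ i, PolyF (f i)) : TD (fun v : α → RatFunc ℝ => S (fun i => f i v)) := by
  obtain ⟨β, hβ, p, hp⟩ := h
  choose q hq using hf
  let sub : Option (γ ⊕ β) → MvPolynomial (Option (α ⊕ β)) ℤ := fun o => match o with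
    | none => MvPolynomial.X none
    | some (Sum.inl i) => rename (Option.map Sum.inl) (q i)
    | some (Sum.inr b) => MvPolynomial.X (some (Sum.inr b))
  refine ⟨β, hβ, MvPolynomial.bind₁ sub p, fun v => ?_⟩
  beta_reduce
  rw [hp]
  refine exists_congr fun w => ?_
  rw [MvPolynomial.aeval_bind₁]
  have : (fun o : Option (γ ⊕ β) => o.elim RatFunc.X (Sum.elim (fun i => f i v) w)) =
      fun i => aeval (fun o => o.elim RatFunc.X (Sum.elim v w)) (sub i) := by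
    ext1 o
    rcases o with _ | (o | o)
    · simp [sub]
    · simp only [sub, MvPolynomial.aeval_rename, Option.elim, Sum.elim_inl]
      rw [hq]
      congr 2
      ext o
      cases o <;> rfl
    · simp [sub]
  rw [this]

theorem all_fin (n : ℕ) (S : Fin n → (α → RatFunc ℝ) → Prop) (h : ∀ i, TD (S i)) :
    TD (fun v => ∀ i, S i v) := by
  induction n with
  | zero =>
    refine (eq (α := α) PolyF.zero PolyF.zero).congr fun v => ?_
    simp
  | succ n ih =>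
    refine ((h 0).and (ih (fun i => S i.succ) (fun i => h i.succ))).congr fun v => ?_
    rw [Fin.forall_fin_succ]

theorem all {ι : Type} [Finite ι] (S : ι → (α → RatFunc ℝ) → Prop) (h : ∀ i, TD (S i)) :
    TD (fun v => ∀ i, S i v) := by
  obtain ⟨n, ⟨e⟩⟩ := Finite.exists_equiv_fin ι
  refine (all_fin n (fun i => S (e.symm i)) (fun i => h _)).congr fun v => ?_
  constructor
  · intro H i
    have := H (e i)
    simpa using this
  · intro H i
    exact H _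

end TD

/-! ### The natural numbers -/

/-- constants of `ℝ(t)` -/
theorem isConst_iff (x : RatFunc ℝ) : (∃ y : RatFunc ℝ, y ^ 2 = 1 + x ^ 4) ↔
    ∃ c : ℝ, x = RatFunc.C c := by
  constructor
  · rintro ⟨y, hy⟩
    exact const_of_sq hy
  · rintro ⟨c, rfl⟩
    refine ⟨RatFunc.C (Real.sqrt (1 + c ^ 4)), ?_⟩
    rw [← map_pow, Real.sq_sqrt (by positivity)]
    simp

theorem nonneg_of_sq {ν : ℝ} {s : RatFunc ℝ} (h : RatFunc.C ν = s ^ 2) : 0 ≤ ν := by
  have h1 : algebraMap (Polynomial ℝ) (RatFunc ℝ) (Polynomial.C ν) = s ^ 2 + 0 ^ 2 := by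
    rw [RatFunc.algebraMap_C, h]
    ring
  simpa using nonneg_of_sos h1 0

/-- the natural numbers are Diophantine -/
theorem nat_iff (x : RatFunc ℝ) : (∃ m : ℕ, x = m) ↔
    ∃ w : Fin 9 → RatFunc ℝ,
      w 0 ^ 2 = 1 + x ^ 4 ∧ x = w 1 ^ 2 ∧ w 2 ^ 2 = 1 + w 3 ^ 4 ∧
      (1 - RatFunc.X ^ 4) * w 4 ^ 2 = 1 - w 5 ^ 4 ∧
      w 6 * (1 - RatFunc.X ^ 2) = 1 - w 5 ^ 2 ∧
      w 3 * (RatFunc.X - 1) ^ 2 * (1 + w 6) ^ 2 =
        (1 + RatFunc.X ^ 2) * (x ^ 2 - w 6) ^ 2 + (w 7 ^ 2 + w 8 ^ 2) := by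
  constructor
  · rintro ⟨m, rfl⟩
    obtain ⟨Z, W, H, a, b, γ, h1, h2, h3⟩ := complete m
    have e : (m : RatFunc ℝ) = RatFunc.C (m : ℝ) := by simp
    obtain ⟨y, hy⟩ := (isConst_iff (m : RatFunc ℝ)).2 ⟨m, e⟩
    obtain ⟨y', hy'⟩ := (isConst_iff (RatFunc.C γ)).2 ⟨γ, rfl⟩
    refine ⟨![y, RatFunc.C (Real.sqrt m), y', RatFunc.C γ, W, Z, H, a, b], ?_⟩
    refine ⟨hy, ?_, hy', h1, h2, ?_⟩
    · change (m : RatFunc ℝ) = RatFunc.C (Real.sqrt m) ^ 2
      rw [← map_pow, Real.sq_sqrt (Nat.cast_nonneg m), e]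
    · rw [← e] at h3
      exact h3
  · rintro ⟨w, h0, h1, h2, h3, h4, h5⟩
    obtain ⟨ν, rfl⟩ := (isConst_iff x).1 ⟨_, h0⟩
    obtain ⟨γ, hγ⟩ := (isConst_iff (w 3)).1 ⟨_, h2⟩
    rw [hγ] at h5
    obtain ⟨m, hm⟩ := sound h3 h4 h5
    have hν := nonneg_of_sq h1
    have hm0 : 0 ≤ m := by
      rw [hm] at hν
      exact_mod_cast hν
    obtain ⟨k, rfl⟩ := Int.eq_ofNat_of_zero_le hm0
    refine ⟨k, ?_⟩
    rw [hm]
    simp

theorem nat_TD : TD (fun v : Unit → RatFunc ℝ => ∃ m : ℕ, v () = m) := by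
  refine TD.congr (S := fun v : Unit → RatFunc ℝ => ∃ w : Fin 9 → RatFunc ℝ,
      w 0 ^ 2 = 1 + v () ^ 4 ∧ v () = w 1 ^ 2 ∧ w 2 ^ 2 = 1 + w 3 ^ 4 ∧
      (1 - RatFunc.X ^ 4) * w 4 ^ 2 = 1 - w 5 ^ 4 ∧
      w 6 * (1 - RatFunc.X ^ 2) = 1 - w 5 ^ 2 ∧
      w 3 * (RatFunc.X - 1) ^ 2 * (1 + w 6) ^ 2 =
        (1 + RatFunc.X ^ 2) * (v () ^ 2 - w 6) ^ 2 + (w 7 ^ 2 + w 8 ^ 2)) ?_
    (fun v => (nat_iff (v ())).symm)
  have hw : ∀ i : Fin 9, PolyF (fun u : Unit ⊕ Fin 9 → RatFunc ℝ => u (Sum.inr i)) :=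
    fun i => PolyF.var _
  have hx : PolyF (fun u : Unit ⊕ Fin 9 → RatFunc ℝ => u (Sum.inl ())) := PolyF.var _
  have hT : PolyF (fun _ : Unit ⊕ Fin 9 → RatFunc ℝ => RatFunc.X) := PolyF.T
  have h1 : PolyF (fun _ : Unit ⊕ Fin 9 → RatFunc ℝ => 1) := PolyF.one
  refine TD.ex (S := fun u : Unit ⊕ Fin 9 → RatFunc ℝ =>
      u (Sum.inr 0) ^ 2 = 1 + u (Sum.inl ()) ^ 4 ∧ u (Sum.inl ()) = u (Sum.inr 1) ^ 2 ∧
      u (Sum.inr 2) ^ 2 = 1 + u (Sum.inr 3) ^ 4 ∧
      (1 - RatFunc.X ^ 4) * u (Sum.inr 4) ^ 2 = 1 - u (Sum.inr 5) ^ 4 ∧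
      u (Sum.inr 6) * (1 - RatFunc.X ^ 2) = 1 - u (Sum.inr 5) ^ 2 ∧
      u (Sum.inr 3) * (RatFunc.X - 1) ^ 2 * (1 + u (Sum.inr 6)) ^ 2 =
        (1 + RatFunc.X ^ 2) * (u (Sum.inl ()) ^ 2 - u (Sum.inr 6)) ^ 2 +
          (u (Sum.inr 7) ^ 2 + u (Sum.inr 8) ^ 2)) ?_
  refine TD.and (TD.eq ((hw 0).pow 2) (h1.add (hx.pow 4))) ?_
  refine TD.and (TD.eq hx ((hw 1).pow 2)) ?_
  refine TD.and (TD.eq ((hw 2).pow 2) (h1.add ((hw 3).pow 4))) ?_
  refine TD.and (TD.eq ((h1.sub (hT.pow 4)).mul ((hw 4).pow 2)) (h1.sub ((hw 5).pow 4))) ?_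
  refine TD.and (TD.eq ((hw 6).mul (h1.sub (hT.pow 2))) (h1.sub ((hw 5).pow 2))) ?_
  exact TD.eq (((hw 3).mul ((hT.sub h1).pow 2)).mul ((h1.add (hw 6)).pow 2))
    (((h1.add (hT.pow 2)).mul (((hx.pow 2).sub (hw 6)).pow 2)).add
      (((hw 7).pow 2).add ((hw 8).pow 2)))

/-! ### Diophantine sets of natural numbers -/

theorem poly_repr {α : Type} (p : Poly α) :
    ∃ P : MvPolynomial α ℤ, ∀ v : α → ℕ, p v = aeval (fun i => (v i : ℤ)) P := by
  induction p using Poly.induction with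
  | H1 i => exact ⟨MvPolynomial.X i, fun v => by simp⟩
  | H2 n => exact ⟨MvPolynomial.C n, fun v => by simp⟩
  | H3 f g hf hg =>
    obtain ⟨P, hP⟩ := hf
    obtain ⟨Q, hQ⟩ := hg
    exact ⟨P - Q, fun v => by rw [Poly.sub_apply, map_sub, hP, hQ]⟩
  | H4 f g hf hg =>
    obtain ⟨P, hP⟩ := hf
    obtain ⟨Q, hQ⟩ := hg
    exact ⟨P * Q, fun v => by rw [Poly.mul_apply, map_mul, hP, hQ]⟩

theorem dioph_TD {α : Type} [Finite α] {S : Set (α → ℕ)} (h : Dioph S) :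
    TD (fun v : α → RatFunc ℝ => ∃ u ∈ S, v = fun i => ((u i : ℕ) : RatFunc ℝ)) := by
  classical
  obtain ⟨β, p, hp⟩ := h
  obtain ⟨P, hP⟩ := poly_repr p
  -- finitely many auxiliary variables
  let β' := {b : β // Sum.inr b ∈ P.vars}
  have hfin : Finite β' := by
    apply Finite.of_injective (fun b : β' => (⟨Sum.inr b.1, b.2⟩ : {x // x ∈ P.vars}))
    intro b b' hb
    have := congrArg Subtype.val hb
    exact Subtype.ext (Sum.inr_injective this)
  obtain ⟨Q, hQ⟩ := MvPolynomial.exists_rename_eq_of_vars_subset_range P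
    (Sum.map id Subtype.val : α ⊕ β' → α ⊕ β)
    (Sum.map_injective.2 ⟨Function.injective_id, Subtype.val_injective⟩) (by
      intro x hx
      rcases x with a | b
      · exact ⟨Sum.inl a, rfl⟩
      · exact ⟨Sum.inr ⟨b, hx⟩, rfl⟩)
  have hS : ∀ u : α → ℕ, u ∈ S ↔ ∃ t : β' → ℕ,
      aeval (fun i => ((Sum.elim u t i : ℕ) : ℤ)) Q = 0 := by
    intro u
    have key : ∀ t : β → ℕ, p (Sum.elim u t) =
        aeval (fun i => ((Sum.elim u (fun b : β' => t b.1) i : ℕ) : ℤ)) Q := by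
      intro t
      rw [hP]
      conv_lhs => rw [← hQ]
      rw [MvPolynomial.aeval_rename]
      congr 2
      ext i
      rcases i with i | i <;> rfl
    rw [hp]
    constructor
    · rintro ⟨t, ht⟩
      refine ⟨fun b => t b.1, ?_⟩
      rw [← key, ht]
    · rintro ⟨t, ht⟩
      refine ⟨fun b => if hb : Sum.inr b ∈ P.vars then t ⟨b, hb⟩ else 0, ?_⟩
      rw [key]
      have : (fun b : β' => if hb : Sum.inr b.1 ∈ P.vars then t ⟨b.1, hb⟩ else 0) = t := by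
        ext ⟨b, hb⟩
        simp [hb]
      rw [this, ht]
  have hcast : ∀ u : α ⊕ β' → ℕ, aeval (fun i => ((u i : ℕ) : RatFunc ℝ)) Q =
      ((aeval (fun i => ((u i : ℕ) : ℤ)) Q : ℤ) : RatFunc ℝ) := by
    intro u
    rw [← eq_intCast (algebraMap ℤ (RatFunc ℝ))]
    rw [← MvPolynomial.aeval_algebraMap_apply]
    congr 2
    ext i
    simp
  refine TD.congr (S := fun v : α → RatFunc ℝ => ∃ w : β' → RatFunc ℝ,
    (∀ i, ∃ m : ℕ, Sum.elim v w i = m) ∧ aeval (Sum.elim v w) Q = 0) ?_ ?_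
  · refine TD.ex (S := fun u : α ⊕ β' → RatFunc ℝ =>
      (∀ i, ∃ m : ℕ, u i = m) ∧ aeval u Q = 0) (TD.and ?_ ?_)
    · refine TD.all (fun i (u : α ⊕ β' → RatFunc ℝ) => ∃ m : ℕ, u i = m) fun i => ?_
      exact TD.comp nat_TD (f := fun _ u => u i) fun _ => PolyF.var i
    · refine TD.eq (f := fun u => aeval u Q) ?_ PolyF.zero
      refine ⟨rename some Q, fun v => ?_⟩
      rw [MvPolynomial.aeval_rename]
      rfl
  · intro v
    constructor
    · rintro ⟨w, hw, hQ0⟩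
      choose u hu using hw
      refine ⟨fun i => u (Sum.inl i), ?_, ?_⟩
      · rw [hS]
        refine ⟨fun i => u (Sum.inr i), ?_⟩
        have e1 : (Sum.elim (fun i => u (Sum.inl i)) fun i => u (Sum.inr i)) = u := by
          ext i
          rcases i with i | i <;> rfl
        rw [e1]
        have e2 : Sum.elim v w = fun i => ((u i : ℕ) : RatFunc ℝ) := by
          ext1 i
          exact hu i
        rw [e2, hcast] at hQ0
        exact_mod_cast hQ0
      · ext1 i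
        exact hu (Sum.inl i)
    · rintro ⟨u, hu, rfl⟩
      obtain ⟨t, ht⟩ := (hS u).1 hu
      refine ⟨fun i => ((t i : ℕ) : RatFunc ℝ), ?_, ?_⟩
      · intro i
        rcases i with i | i
        · exact ⟨u i, rfl⟩
        · exact ⟨t i, rfl⟩
      · have e1 : (Sum.elim (fun i => ((u i : ℕ) : RatFunc ℝ)) fun i => ((t i : ℕ) : RatFunc ℝ)) =
            fun i => ((Sum.elim u t i : ℕ) : RatFunc ℝ) := by
          ext1 i
          rcases i with i | i <;> rfl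
        rw [e1, hcast, ht]
        simp

end

end Pool.Agent.H699R2
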