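import Mathlib

/-!
# `e` is transcendental
-/

open Filter Topology Polynomial

namespace Pool.Agent.H699R2

theorem tendsto_aux (c K : ℝ) :
    Tendsto (fun p : ℕ => K * (c ^ (p + 1) / (p.factorial : ℝ))) atTop (𝓝 0) := by
  have h1 := FloorSemiring.tendsto_pow_div_factorial_atTop c
  have h2 := (h1.const_mul (K * c))
  rw [mul_zero] at h2
  refine h2.congr fun p => ?_
  rw [pow_succ]
  ring

theorem exp_one_transcendental : ¬ IsAlgebraic ℤ (Real.exp 1) := by
  rintro ⟨a0, ha0, hroot0⟩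
  -- make the constant coefficient nonzero
  obtain ⟨a, ha, hroot⟩ : ∃ a : ℤ[X], a.coeff 0 ≠ 0 ∧ aeval (Real.exp 1) a = 0 := by
    obtain ⟨n, q, hq, hnq⟩ : ∃ (n : ℕ) (q : ℤ[X]), a0 = X ^ n * q ∧ q.coeff 0 ≠ 0 := by
      obtain ⟨q, hq⟩ := exists_eq_pow_rootMultiplicity_mul_and_not_dvd a0 ha0 0
      refine ⟨_, q, by simpa using hq.1, ?_⟩
      have := hq.2
      rwa [C_0, sub_zero, X_dvd_iff] at this
    refine ⟨q, hnq, ?_⟩
    rw [hq, map_mul, map_pow, aeval_X] at hroot0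
    exact (mul_eq_zero.1 hroot0).resolve_left (pow_ne_zero _ (Real.exp_pos 1).ne')
  set m := a.natDegree with hm
  set f : ℤ[X] := ∏ k ∈ Finset.range m, (X - C ((k : ℤ) + 1)) with hf
  have hf0 : f.eval 0 ≠ 0 := by
    rw [hf, eval_prod]
    rw [Finset.prod_ne_zero_iff]
    intro k _
    simp only [eval_sub, eval_X, eval_C]
    omega
  have hfne : f ≠ 0 := by
    intro h
    rw [h] at hf0
    simp at hf0
  obtain ⟨c, hc⟩ := LindemannWeierstrass.exp_polynomial_approx f hf0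
  set K : ℝ := ∑ k ∈ Finset.range m, |(a.coeff (k + 1) : ℝ)| with hK
  have hK0 : 0 ≤ K := Finset.sum_nonneg fun _ _ => abs_nonneg _
  -- choose a large prime
  have hlim := tendsto_aux |c| K
  obtain ⟨N, hN⟩ := eventually_atTop.1 (hlim.eventually (gt_mem_nhds (show (0 : ℝ) < 1 by norm_num)))
  obtain ⟨p, hp1, hp⟩ := Nat.exists_infinite_primes
    (N + (eval 0 f).natAbs + (a.coeff 0).natAbs + 2)
  obtain ⟨n, hpn, gp, _, hgp⟩ := hc p (by omega) hp
  -- the integer
  set S : ℤ := a.coeff 0 * n + p * ∑ k ∈ Finset.range m, a.coeff (k + 1) * gp.eval ((k : ℤ) + 1)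
    with hS
  have hSne : S ≠ 0 := by
    intro h0
    have h1 : (p : ℤ) ∣ a.coeff 0 * n := by
      refine ⟨-∑ k ∈ Finset.range m, a.coeff (k + 1) * gp.eval ((k : ℤ) + 1), ?_⟩
      rw [hS] at h0
      linear_combination h0
    rcases (Nat.prime_iff_prime_int.1 hp).dvd_or_dvd h1 with h2 | h2
    · have h3 := Int.natAbs_dvd_natAbs.2 h2
      rw [Int.natAbs_natCast] at h3
      have h4 := Nat.le_of_dvd (Int.natAbs_pos.2 ha) h3
      omega
    · exact hpn h2
  -- expansion of the root equation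
  have hexp : (a.coeff 0 : ℝ) + ∑ k ∈ Finset.range m, (a.coeff (k + 1) : ℝ) *
      Real.exp ((k : ℝ) + 1) = 0 := by
    rw [aeval_eq_sum_range, Finset.sum_range_succ'] at hroot
    rw [add_comm]
    simp only [zsmul_eq_mul, pow_zero, mul_one] at hroot
    rw [← hroot]
    congr 1
    refine Finset.sum_congr rfl fun k _ => ?_
    rw [← Real.exp_nat_mul]
    push_cast
    ring_nf
  have happrox : ∀ k ∈ Finset.range m,
      |(n : ℝ) * Real.exp ((k : ℝ) + 1) - p * ((gp.eval ((k : ℤ) + 1) : ℤ) : ℝ)| ≤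
        |c| ^ p / (p - 1).factorial := by
    intro k hk
    have hmem : (((k : ℤ) + 1 : ℤ) : ℂ) ∈ f.aroots ℂ := by
      rw [mem_aroots]
      refine ⟨hfne, ?_⟩
      rw [hf, map_prod]
      apply Finset.prod_eq_zero hk
      simp
    have h1 := hgp hmem
    have h2 : (n • Complex.exp (((k : ℤ) + 1 : ℤ) : ℂ) - p • aeval ((((k : ℤ) + 1 : ℤ)) : ℂ) gp) =
        (((n : ℝ) * Real.exp ((k : ℝ) + 1) - p * ((gp.eval ((k : ℤ) + 1) : ℤ) : ℝ) : ℝ) : ℂ) := by
      have e1 : aeval ((((k : ℤ) + 1 : ℤ)) : ℂ) gp = ((gp.eval ((k : ℤ) + 1) : ℤ) : ℂ) := by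
        rw [← eq_intCast (algebraMap ℤ ℂ), aeval_algebraMap_apply_eq_algebraMap_eval]
        simp
      rw [e1]
      simp only [zsmul_eq_mul, nsmul_eq_mul]
      push_cast
      rfl
    rw [h2, Complex.norm_real, Real.norm_eq_abs] at h1
    refine h1.trans ?_
    have h3 : c ^ p ≤ |c| ^ p := by
      rw [← abs_pow]
      exact le_abs_self _
    exact div_le_div_of_nonneg_right h3 (by positivity)
  have hbound : |(S : ℝ)| ≤ K * (|c| ^ p / (p - 1).factorial) := by
    have e1 : (S : ℝ) = -∑ k ∈ Finset.range m, (a.coeff (k + 1) : ℝ) *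
        ((n : ℝ) * Real.exp ((k : ℝ) + 1) - p * ((gp.eval ((k : ℤ) + 1) : ℤ) : ℝ)) := by
      have e2 : ∑ k ∈ Finset.range m, (a.coeff (k + 1) : ℝ) *
          ((n : ℝ) * Real.exp ((k : ℝ) + 1) - p * ((gp.eval ((k : ℤ) + 1) : ℤ) : ℝ)) =
          n * ∑ k ∈ Finset.range m, (a.coeff (k + 1) : ℝ) * Real.exp ((k : ℝ) + 1) -
          p * ∑ k ∈ Finset.range m, (a.coeff (k + 1) : ℝ) * ((gp.eval ((k : ℤ) + 1) : ℤ) : ℝ) := by
        rw [Finset.mul_sum, Finset.mul_sum, ← Finset.sum_sub_distrib]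
        refine Finset.sum_congr rfl fun k _ => ?_
        ring
      rw [e2, hS]
      push_cast
      linear_combination (n : ℝ) * hexp
    rw [e1, abs_neg, hK, Finset.sum_mul]
    refine (Finset.abs_sum_le_sum_abs _ _).trans ?_
    refine Finset.sum_le_sum fun k hk => ?_
    rw [abs_mul]
    exact mul_le_mul_of_nonneg_left (happrox k hk) (abs_nonneg _)
  have hlt := hN (p - 1) (by omega)
  rw [Nat.sub_add_cancel (by omega)] at hlt
  have h1 : (1 : ℝ) ≤ |(S : ℝ)| := by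
    have := Int.one_le_abs hSne
    exact_mod_cast this
  linarith

/-- `e` is not algebraic over `ℚ`. -/
theorem exp_one_not_algebraic : ¬ IsAlgebraic ℚ (Real.exp 1) := by
  intro h
  exact exp_one_transcendental ((IsFractionRing.isAlgebraic_iff ℤ ℚ ℝ).2 h)

end Pool.Agent.H699R2
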