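import Pool.Agent.H699R2.Sem

/-!
# Ring formulas and polynomials
-/

open Filter Topology Polynomial FirstOrder FirstOrder.Language

namespace Pool.Agent.H699R2

noncomputable section

/-- every term of the language of rings is a polynomial with integer coefficients -/
theorem exists_poly {k : ℕ} (t : Language.ring.Term (Empty ⊕ Fin k)) :
    ∃ P : MvPolynomial (Fin k) ℤ, ∀ (R : Type) [CommRing R] [Ring.CompatibleRing R]
      (v : Empty → R) (xs : Fin k → R),
      t.realize (Sum.elim v xs) = MvPolynomial.eval₂ (Int.castRingHom R) xs P := by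
  induction t with
  | var a =>
    rcases a with a | a
    · exact a.elim
    · exact ⟨MvPolynomial.X a, fun R _ _ v xs => by simp⟩
  | func f ts ih =>
    choose P hP using ih
    cases f with
    | add =>
      refine ⟨P 0 + P 1, fun R _ _ v xs => ?_⟩
      rw [MvPolynomial.eval₂_add, ← hP 0 R v xs, ← hP 1 R v xs]
      exact Ring.CompatibleRing.funMap_add _
    | mul =>
      refine ⟨P 0 * P 1, fun R _ _ v xs => ?_⟩
      rw [MvPolynomial.eval₂_mul, ← hP 0 R v xs, ← hP 1 R v xs]
      exact Ring.CompatibleRing.funMap_mul _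
    | neg =>
      refine ⟨- P 0, fun R _ _ v xs => ?_⟩
      rw [MvPolynomial.eval₂_neg, ← hP 0 R v xs]
      exact Ring.CompatibleRing.funMap_neg _
    | zero =>
      refine ⟨0, fun R _ _ v xs => ?_⟩
      rw [MvPolynomial.eval₂_zero]
      exact Ring.CompatibleRing.funMap_zero _
    | one =>
      refine ⟨1, fun R _ _ v xs => ?_⟩
      rw [MvPolynomial.eval₂_one]
      exact Ring.CompatibleRing.funMap_one _

/-- the atomic formula `P = 0` -/
def atom {k : ℕ} (P : MvPolynomial (Fin k) ℤ) : Language.ring.BoundedFormula Empty k :=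
  Term.bdEqual (Ring.termOfFreeCommRing
    ((freeCommRingEquivMvPolynomialInt (Empty ⊕ Fin k)).symm (MvPolynomial.rename Sum.inr P))) 0

theorem atom_qf {k : ℕ} (P : MvPolynomial (Fin k) ℤ) : (atom P).IsQF :=
  BoundedFormula.IsQF.of_isAtomic (BoundedFormula.IsAtomic.equal _ _)

theorem realize_atom {k : ℕ} (P : MvPolynomial (Fin k) ℤ) (R : Type) [CommRing R]
    [Ring.CompatibleRing R] (v : Empty → R) (xs : Fin k → R) :
    (atom P).Realize v xs ↔ MvPolynomial.eval₂ (Int.castRingHom R) xs P = 0 := by
  have h1 : ∀ (α : Type) (f : α → R) (Q : MvPolynomial α ℤ),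
      FreeCommRing.lift f ((freeCommRingEquivMvPolynomialInt α).symm Q) =
        MvPolynomial.eval₂ (Int.castRingHom R) f Q := by
    intro α f Q
    have h2 : (FreeCommRing.lift f).comp
        ((freeCommRingEquivMvPolynomialInt α).symm : MvPolynomial α ℤ →+* FreeCommRing α) =
        MvPolynomial.eval₂Hom (Int.castRingHom R) f := by
      apply MvPolynomial.ringHom_ext
      · intro n
        simp
      · intro i
        simp [freeCommRingEquivMvPolynomialInt]
    exact congrArg (fun g => g Q) h2
  rw [atom, BoundedFormula.realize_bdEqual, Ring.realize_termOfFreeCommRing, h1,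
    Ring.realize_zero, MvPolynomial.eval₂_rename]
  rfl

/-- `m` universal quantifiers -/
def allN {k : ℕ} : ∀ m : ℕ, Language.ring.BoundedFormula Empty (k + m) →
    Language.ring.BoundedFormula Empty k
  | 0, φ => φ
  | m + 1, φ => allN m φ.all

/-- `m` existential quantifiers -/
def exN {k : ℕ} : ∀ m : ℕ, Language.ring.BoundedFormula Empty (k + m) →
    Language.ring.BoundedFormula Empty k
  | 0, φ => φ
  | m + 1, φ => exN m φ.ex

theorem append_zero {R : Type} {k : ℕ} (xs : Fin k → R) (ys : Fin 0 → R) :
    Fin.append xs ys = xs := by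
  funext i
  exact Fin.append_left xs ys i

theorem realize_allN {R : Type} [Language.ring.Structure R] {k : ℕ} (v : Empty → R)
    (xs : Fin k → R) : ∀ (m : ℕ) (φ : Language.ring.BoundedFormula Empty (k + m)),
      (allN m φ).Realize v xs ↔ ∀ ys : Fin m → R, φ.Realize v (Fin.append xs ys)
  | 0, φ => by
    constructor
    · intro h ys
      rw [append_zero]
      exact h
    · intro h
      have := h Fin.elim0
      rw [append_zero] at this
      exact this
  | m + 1, φ => by
    rw [allN, realize_allN v xs m φ.all]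
    constructor
    · intro h ys
      have h1 := h (fun i => ys i.castSucc)
      rw [BoundedFormula.realize_all] at h1
      have h2 := h1 (ys (Fin.last m))
      rw [← Fin.append_snoc] at h2
      have h3 : (Fin.snoc (fun i : Fin m => ys i.castSucc) (ys (Fin.last m)) : Fin (m + 1) → R)
          = ys := Fin.snoc_init_self ys
      rw [h3] at h2
      exact h2
    · intro h ys
      rw [BoundedFormula.realize_all]
      intro a
      rw [← Fin.append_snoc]
      exact h _

theorem realize_exN {R : Type} [Language.ring.Structure R] {k : ℕ} (v : Empty → R)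
    (xs : Fin k → R) : ∀ (m : ℕ) (φ : Language.ring.BoundedFormula Empty (k + m)),
      (exN m φ).Realize v xs ↔ ∃ ys : Fin m → R, φ.Realize v (Fin.append xs ys)
  | 0, φ => by
    constructor
    · intro h
      refine ⟨Fin.elim0, ?_⟩
      rw [append_zero]
      exact h
    · rintro ⟨ys, h⟩
      rw [append_zero] at h
      exact h
  | m + 1, φ => by
    rw [exN, realize_exN v xs m φ.ex]
    constructor
    · rintro ⟨ys, h⟩
      rw [BoundedFormula.realize_ex] at h
      obtain ⟨a, ha⟩ := h
      rw [← Fin.append_snoc] at ha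
      exact ⟨_, ha⟩
    · rintro ⟨ys, h⟩
      refine ⟨fun i => ys i.castSucc, ?_⟩
      rw [BoundedFormula.realize_ex]
      refine ⟨ys (Fin.last m), ?_⟩
      rw [← Fin.append_snoc]
      have h3 : (Fin.snoc (fun i : Fin m => ys i.castSucc) (ys (Fin.last m)) : Fin (m + 1) → R)
          = ys := Fin.snoc_init_self ys
      rw [h3]
      exact h

theorem tauR_int (n : ℤ) : tauR ((n : ℤ) : (RAlg)[X]) = n := by simp

/-- a quantifier-free formula, true for some tuple of `ℝ(t)`, is true for some tuple of `k(t)` -/
theorem qf_down {k : ℕ} {φ : Language.ring.BoundedFormula Empty k} (hφ : φ.IsQF)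
    [Ring.CompatibleRing (RatFunc ℝ)] [Ring.CompatibleRing (RatFunc RAlg)]
    (v : Empty → RatFunc ℝ) (v' : Empty → RatFunc RAlg)
    (xs : Fin k → RatFunc ℝ) (h : φ.Realize v xs) :
    ∃ xs' : Fin k → RatFunc RAlg, φ.Realize v' xs' := by
  obtain ⟨ι, l, hl, w', hw'⟩ := transfer k xs
  have hP : ∀ P : MvPolynomial (Fin k) ℤ, ∀ᶠ i in l,
      (MvPolynomial.eval₂ (Int.castRingHom (RatFunc RAlg)) (w' i) P = 0 ↔
        MvPolynomial.eval₂ (Int.castRingHom (RatFunc ℝ)) xs P = 0) := by
    intro P
    filter_upwards [hw' (MvPolynomial.map (Int.castRingHom _) P)] with i hi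
    rw [MvPolynomial.eval₂_map, MvPolynomial.eval₂_map] at hi
    rwa [RingHom.ext_int (tauA.comp (Int.castRingHom _)) (Int.castRingHom (RatFunc RAlg)),
      RingHom.ext_int (tauR.comp (Int.castRingHom _)) (Int.castRingHom (RatFunc ℝ))] at hi
  have key : ∀ᶠ i in l, (φ.Realize v' (w' i) ↔ φ.Realize v xs) := by
    clear h
    induction hφ with
    | falsum => exact Filter.Eventually.of_forall fun i => Iff.rfl
    | of_isAtomic h =>
      cases h with
      | equal t₁ t₂ =>
        obtain ⟨P1, h1⟩ := exists_poly t₁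
        obtain ⟨P2, h2⟩ := exists_poly t₂
        filter_upwards [hP (P1 - P2)] with i hi
        rw [BoundedFormula.realize_bdEqual, BoundedFormula.realize_bdEqual, h1, h2, h1, h2,
          ← sub_eq_zero, ← sub_eq_zero (a := MvPolynomial.eval₂ _ xs P1)]
        rw [MvPolynomial.eval₂_sub, MvPolynomial.eval₂_sub] at hi
        exact hi
      | rel R ts => exact R.elim
    | imp _ _ ih1 ih2 =>
      filter_upwards [ih1, ih2] with i hi1 hi2
      rw [BoundedFormula.realize_imp, BoundedFormula.realize_imp, hi1, hi2]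
  obtain ⟨i, hi⟩ := key.exists
  exact ⟨w' i, hi.2 h⟩

theorem ex_down {k : ℕ} {φ : Language.ring.BoundedFormula Empty k} (hφ : φ.IsExistential)
    [Ring.CompatibleRing (RatFunc ℝ)] [Ring.CompatibleRing (RatFunc RAlg)]
    (v : Empty → RatFunc ℝ) (v' : Empty → RatFunc RAlg)
    (xs : Fin k → RatFunc ℝ) (h : φ.Realize v xs) :
    ∃ xs' : Fin k → RatFunc RAlg, φ.Realize v' xs' := by
  induction hφ with
  | of_isQF hq => exact qf_down hq v v' xs h
  | ex _ ih =>
    rw [BoundedFormula.realize_ex] at h
    obtain ⟨a, ha⟩ := h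
    obtain ⟨xs', hx⟩ := ih _ ha
    refine ⟨fun i => xs' i.castSucc, ?_⟩
    rw [BoundedFormula.realize_ex]
    refine ⟨xs' (Fin.last _), ?_⟩
    have h3 : (Fin.snoc (fun i => xs' i.castSucc) (xs' (Fin.last _)) : Fin (_ + 1) → _)
          = xs' := Fin.snoc_init_self xs'
    rw [h3]
    exact hx

/-- existential formulas go up along ring embeddings -/
theorem ex_up {k : ℕ} {φ : Language.ring.BoundedFormula Empty k} (hφ : φ.IsExistential)
    {A B : Type} [Field A] [Field B]
    [Ring.CompatibleRing A] [Ring.CompatibleRing B] (f : A →+* B)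
    (v : Empty → A) (v' : Empty → B)
    (xs : Fin k → A) (h : φ.Realize v xs) : φ.Realize v' (f ∘ xs) := by
  have hP : ∀ (k : ℕ) (xs : Fin k → A) (P : MvPolynomial (Fin k) ℤ),
      MvPolynomial.eval₂ (Int.castRingHom B) (f ∘ xs) P =
        f (MvPolynomial.eval₂ (Int.castRingHom A) xs P) := by
    intro k xs P
    rw [← MvPolynomial.coe_eval₂Hom, ← MvPolynomial.coe_eval₂Hom, ← RingHom.comp_apply]
    congr 1
    apply MvPolynomial.ringHom_ext
    · intro n
      simp
    · intro i
      simp
  induction hφ with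
  | of_isQF hq =>
    have key : ∀ {k : ℕ} {ψ : Language.ring.BoundedFormula Empty k}, ψ.IsQF → ∀ xs : Fin k → A,
        (ψ.Realize v' (f ∘ xs) ↔ ψ.Realize v xs) := by
      intro k ψ hψ xs
      induction hψ with
      | falsum => exact Iff.rfl
      | of_isAtomic h =>
        cases h with
        | equal t₁ t₂ =>
          obtain ⟨P1, h1⟩ := exists_poly t₁
          obtain ⟨P2, h2⟩ := exists_poly t₂
          rw [BoundedFormula.realize_bdEqual, BoundedFormula.realize_bdEqual, h1, h2, h1, h2,
            hP, hP]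
          exact f.injective.eq_iff
        | rel R ts => exact R.elim
      | imp _ _ ih1 ih2 =>
        rw [BoundedFormula.realize_imp, BoundedFormula.realize_imp, ih1, ih2]
    exact (key hq xs).2 h
  | ex _ ih =>
    rw [BoundedFormula.realize_ex] at h ⊢
    obtain ⟨a, ha⟩ := h
    refine ⟨f a, ?_⟩
    have := ih _ ha
    rw [Fin.comp_snoc] at this
    exact this

end

end Pool.Agent.H699R2
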