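import Pool.Agent.H699R2.Alg

open Filter Topology Polynomial

namespace Pool.Agent.H699R2

noncomputable section

/-- `f` is regular at `1` with value `v` -/
def Val (f : RatFunc ℝ) (v : ℝ) : Prop :=
  ∃ p r : ℝ[X], r.eval 1 ≠ 0 ∧ f * algebraMap ℝ[X] (RatFunc ℝ) r = algebraMap ℝ[X] (RatFunc ℝ) p ∧
    p.eval 1 = v * r.eval 1

namespace Val

theorem poly (p : ℝ[X]) : Val (algebraMap ℝ[X] (RatFunc ℝ) p) (p.eval 1) :=
  ⟨p, 1, by simp, by simp, by simp⟩

theorem X : Val RatFunc.X 1 := by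
  have := poly Polynomial.X
  simpa using this

theorem one : Val 1 1 := by
  have := poly 1
  simpa using this

theorem zero : Val 0 0 := by
  have := poly 0
  simpa using this

theorem add {f g : RatFunc ℝ} {v w : ℝ} (hf : Val f v) (hg : Val g w) : Val (f + g) (v + w) := by
  obtain ⟨p, r, h1, h2, h3⟩ := hf
  obtain ⟨p', r', h1', h2', h3'⟩ := hg
  refine ⟨p * r' + p' * r, r * r', ?_, ?_, ?_⟩
  · rw [eval_mul]
    exact mul_ne_zero h1 h1'
  · simp only [map_mul, map_add]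
    rw [← h2, ← h2']
    ring
  · simp only [eval_mul, eval_add]
    rw [h3, h3']
    ring

theorem mul {f g : RatFunc ℝ} {v w : ℝ} (hf : Val f v) (hg : Val g w) : Val (f * g) (v * w) := by
  obtain ⟨p, r, h1, h2, h3⟩ := hf
  obtain ⟨p', r', h1', h2', h3'⟩ := hg
  refine ⟨p * p', r * r', ?_, ?_, ?_⟩
  · rw [eval_mul]
    exact mul_ne_zero h1 h1'
  · simp only [map_mul]
    rw [← h2, ← h2']
    ring
  · simp only [eval_mul]
    rw [h3, h3']
    ring

theorem neg {f : RatFunc ℝ} {v : ℝ} (hf : Val f v) : Val (-f) (-v) := by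
  obtain ⟨p, r, h1, h2, h3⟩ := hf
  refine ⟨-p, r, h1, ?_, ?_⟩
  · rw [map_neg, ← h2]
    ring
  · rw [eval_neg, h3]
    ring

theorem sub {f g : RatFunc ℝ} {v w : ℝ} (hf : Val f v) (hg : Val g w) : Val (f - g) (v - w) := by
  rw [sub_eq_add_neg, sub_eq_add_neg]
  exact hf.add hg.neg

theorem pow {f : RatFunc ℝ} {v : ℝ} (hf : Val f v) (n : ℕ) : Val (f ^ n) (v ^ n) := by
  induction n with
  | zero => simpa using one
  | succ n ih =>
    rw [pow_succ, pow_succ]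
    exact ih.mul hf

theorem uniq {f : RatFunc ℝ} {v w : ℝ} (hf : Val f v) (hg : Val f w) : v = w := by
  obtain ⟨p, r, h1, h2, h3⟩ := hf
  obtain ⟨p', r', h1', h2', h3'⟩ := hg
  have h4 : p * r' = p' * r := by
    apply IsFractionRing.injective ℝ[X] (RatFunc ℝ)
    rw [map_mul, map_mul, ← h2, ← h2']
    ring
  have h5 := congrArg (eval 1) h4
  rw [eval_mul, eval_mul, h3, h3'] at h5
  have h6 : (v - w) * (r.eval 1 * r'.eval 1) = 0 := by linear_combination h5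
  have h7 := (mul_eq_zero.1 h6).resolve_right (mul_ne_zero h1 h1')
  linarith

theorem ne_zero {f : RatFunc ℝ} {v : ℝ} (hf : Val f v) (hv : v ≠ 0) : f ≠ 0 := by
  rintro rfl
  exact hv (hf.uniq zero)

theorem div {f g : RatFunc ℝ} {v w : ℝ} (hf : Val f v) (hg : Val g w) (hw : w ≠ 0) :
    Val (f / g) (v / w) := by
  have hg0 := hg.ne_zero hw
  obtain ⟨p, r, h1, h2, h3⟩ := hf
  obtain ⟨p', r', h1', h2', h3'⟩ := hg
  refine ⟨p * r', p' * r, ?_, ?_, ?_⟩
  · rw [eval_mul, h3']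
    exact mul_ne_zero (mul_ne_zero hw h1') h1
  · simp only [map_mul]
    rw [← h2, ← h2']
    field_simp
  · simp only [eval_mul]
    rw [h3, h3']
    field_simp

end Val

theorem one_add_sq_ne (Z : RatFunc ℝ) : (1 + Z ^ 2) ≠ 0 := by
  intro h
  have := (sum_sq_eq_zero (a := 1) (b := Z) (by rw [one_pow]; exact h)).1
  exact one_ne_zero this

/-- The multiples of the generic point. -/
theorem mult (n : ℕ) : ∃ Z W : RatFunc ℝ, (1 - RatFunc.X ^ 4) * W ^ 2 = 1 - Z ^ 4 ∧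
    Val Z 1 ∧ Val W (n + 1) := by
  induction n with
  | zero =>
    refine ⟨RatFunc.X, 1, by ring, Val.X, ?_⟩
    simpa using Val.one
  | succ n ih =>
    obtain ⟨Z, W, h, hZ, hW⟩ := ih
    set T : RatFunc ℝ := RatFunc.X with hT
    have hT1 : Val T 1 := Val.X
    have v1 : Val (1 - T ^ 2) 0 := by
      have := Val.one.sub (hT1.pow 2)
      norm_num at this
      exact this
    have v2 : Val (1 + T ^ 2) 2 := by
      have := Val.one.add (hT1.pow 2)
      norm_num at this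
      exact this
    have v3 : Val (1 + Z ^ 2) 2 := by
      have := Val.one.add (hZ.pow 2)
      norm_num at this
      exact this
    have vDm : Val ((1 + Z ^ 2) - T * Z * W * (1 - T ^ 2)) 2 := by
      have := v3.sub (((hT1.mul hZ).mul hW).mul v1)
      simp only [mul_zero, sub_zero] at this
      exact this
    have vDp : Val ((1 + Z ^ 2) + T * Z * W * (1 - T ^ 2)) 2 := by
      have := v3.add (((hT1.mul hZ).mul hW).mul v1)
      simp only [mul_zero, add_zero] at this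
      exact this
    have vNz : Val (T * Z * (1 + Z ^ 2) - W * (1 - T ^ 2)) 2 := by
      have := ((hT1.mul hZ).mul v3).sub (hW.mul v1)
      norm_num at this
      exact this
    have vNs : Val (W * T * (1 + T ^ 2) + Z * (1 + Z ^ 2)) (2 * (n + 2)) := by
      have := ((hW.mul hT1).mul v2).add (hZ.mul v3)
      convert this using 1
      ring
    have vZ' := vNz.div vDp two_ne_zero
    have vS' := vNs.div (v2.mul vDm) (by norm_num)
    have vW' := (Val.one.add (vZ'.pow 2)).mul vS'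
    refine ⟨(T * Z * (1 + Z ^ 2) - W * (1 - T ^ 2)) / (1 + Z ^ 2 + T * Z * W * (1 - T ^ 2)),
      (1 + ((T * Z * (1 + Z ^ 2) - W * (1 - T ^ 2)) / (1 + Z ^ 2 + T * Z * W * (1 - T ^ 2))) ^ 2) *
      ((W * T * (1 + T ^ 2) + Z * (1 + Z ^ 2)) /
        ((1 + T ^ 2) * (1 + Z ^ 2 - T * Z * W * (1 - T ^ 2)))), ?_, ?_, ?_⟩
    rotate_left
    · have := vZ'
      norm_num at this
      exact this
    · have := vW'
      convert this using 1
      push_cast
      field_simp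
      ring
    · have hT2 := v2.ne_zero two_ne_zero
      have hDp := vDp.ne_zero two_ne_zero
      have hDm := vDm.ne_zero two_ne_zero
      set Dp := (1 + Z ^ 2) + T * Z * W * (1 - T ^ 2) with hDp'
      set Dm := (1 + Z ^ 2) - T * Z * W * (1 - T ^ 2) with hDm'
      set Nz := T * Z * (1 + Z ^ 2) - W * (1 - T ^ 2) with hNz'
      set Ns := W * T * (1 + T ^ 2) + Z * (1 + Z ^ 2) with hNs'
      have key : (1 - T ^ 2) * Ns ^ 2 * (Dp ^ 2 + Nz ^ 2) =
          (1 + T ^ 2) * Dm ^ 2 * (Dp ^ 2 - Nz ^ 2) := by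
        rw [hDp', hDm', hNz', hNs']
        linear_combination ((1) * W ^ 2 * T ^ 10 * Z ^ 4 + (1) * W ^ 2 * T ^ 10 * Z ^ 2 + (-3) * W ^ 2 * T ^ 8 * Z ^ 4 + (-2) * W ^ 2 * T ^ 8 * Z ^ 2 + (1) * W ^ 2 * T ^ 8 + (3) * W ^ 2 * T ^ 6 * Z ^ 4 + (2) * W ^ 2 * T ^ 6 * Z ^ 2 + (-1) * W ^ 2 * T ^ 6 + (-1) * W ^ 2 * T ^ 4 * Z ^ 4 + (-2) * W ^ 2 * T ^ 4 * Z ^ 2 + (-1) * W ^ 2 * T ^ 4 + (1) * W ^ 2 * T ^ 2 * Z ^ 2 + (1) * W ^ 2 * T ^ 2 + (-1) * T ^ 4 * Z ^ 8 + (-3) * T ^ 4 * Z ^ 6 + (-3) * T ^ 4 * Z ^ 4 + (-1) * T ^ 4 * Z ^ 2 + (1) * T ^ 2 * Z ^ 8 + (4) * T ^ 2 * Z ^ 6 + (6) * T ^ 2 * Z ^ 4 + (4) * T ^ 2 * Z ^ 2 + (1) * T ^ 2 + (1) * Z ^ 6 + (3) * Z ^ 4 + (3) * Z ^ 2 + (1)) * h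
      field_simp
      linear_combination ((1 + T ^ 2) * (Dp ^ 2 + Nz ^ 2)) * key

/-- boundedness of the defect -/
theorem exists_bound (M N R : ℝ[X]) (k : ℝ) (hM : ∀ x, 0 ≤ M.eval x) (hN : ∀ x, 0 ≤ N.eval x)
    (hMN : ∀ x, 0 < M.eval x + N.eval x) (hk : 0 ≤ k) (hR : C k * M - N = (X - 1) * R) :
    ∃ γ : ℝ, ∀ x : ℝ, (1 + x ^ 2) * R.eval x ^ 2 ≤ γ * (M.eval x + N.eval x) ^ 2 := by
  have hcont : ContinuousOn (fun x : ℝ => (1 + x ^ 2) * R.eval x ^ 2 / (M.eval x + N.eval x) ^ 2)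
      (Set.Icc 0 2) := by
    apply ContinuousOn.div
    · exact ((continuous_const.add (continuous_id.pow 2)).mul (R.continuous.pow 2)).continuousOn
    · exact ((M.continuous.add N.continuous).pow 2).continuousOn
    · intro x _
      have := hMN x
      positivity
  obtain ⟨B, hB⟩ := isCompact_Icc.exists_bound_of_continuousOn hcont
  refine ⟨max B (5 * (k + 1) ^ 2), fun x => ?_⟩
  have hpos := hMN x
  have hsq : 0 < (M.eval x + N.eval x) ^ 2 := by positivity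
  by_cases hx : 0 ≤ x ∧ x ≤ 2
  · have h1 := (le_abs_self _).trans (hB x hx)
    rw [div_le_iff₀ hsq] at h1
    refine h1.trans ?_
    exact mul_le_mul_of_nonneg_right (le_max_left _ _) hsq.le
  · have h1 : 1 ≤ (x - 1) ^ 2 := by
      rw [not_and_or, not_le, not_le] at hx
      rcases hx with hx | hx <;> nlinarith
    have h2 : 1 + x ^ 2 ≤ 5 * (x - 1) ^ 2 := by
      nlinarith [sq_nonneg (x - 1), sq_nonneg (2 * (x - 1) - 1), sq_nonneg (x - 1 - 1)]
    have h3 : k * M.eval x - N.eval x = (x - 1) * R.eval x := by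
      have := congrArg (eval x) hR
      simpa using this
    have h4 : |k * M.eval x - N.eval x| ≤ (k + 1) * (M.eval x + N.eval x) := by
      have := hM x
      have := hN x
      rw [abs_le]
      constructor <;> nlinarith [mul_nonneg hk (hM x), mul_nonneg hk (hN x)]
    have h5 : (k * M.eval x - N.eval x) ^ 2 ≤ ((k + 1) * (M.eval x + N.eval x)) ^ 2 := by
      rw [← sq_abs (k * M.eval x - N.eval x)]
      exact pow_le_pow_left₀ (abs_nonneg _) h4 2
    calc (1 + x ^ 2) * R.eval x ^ 2 ≤ 5 * (x - 1) ^ 2 * R.eval x ^ 2 :=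
          mul_le_mul_of_nonneg_right h2 (sq_nonneg _)
      _ = 5 * (k * M.eval x - N.eval x) ^ 2 := by rw [h3]; ring
      _ ≤ 5 * ((k + 1) * (M.eval x + N.eval x)) ^ 2 := by linarith
      _ = 5 * (k + 1) ^ 2 * (M.eval x + N.eval x) ^ 2 := by ring
      _ ≤ _ := mul_le_mul_of_nonneg_right (le_max_right _ _) hsq.le

theorem complete_pos (n : ℕ) : ∃ (Z W H a b : RatFunc ℝ) (γ : ℝ),
    (1 - RatFunc.X ^ 4) * W ^ 2 = 1 - Z ^ 4 ∧
    H * (1 - RatFunc.X ^ 2) = 1 - Z ^ 2 ∧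
    RatFunc.C γ * (RatFunc.X - 1) ^ 2 * (1 + H) ^ 2 =
      (1 + RatFunc.X ^ 2) * (RatFunc.C ((n : ℝ) + 1) ^ 2 - H) ^ 2 + (a ^ 2 + b ^ 2) := by
  obtain ⟨Z, W, h1, hZ1, hW1⟩ := mult n
  have hZ : ∀ c : ℝ, Z ≠ RatFunc.C c := by
    rintro c rfl
    have e1 : Val (RatFunc.C c) c := by
      have := Val.poly (C c)
      simpa [RatFunc.algebraMap_C] using this
    have e2 : c = 1 := e1.uniq hZ1
    rw [e2] at h1
    have e3 : (1 - RatFunc.X ^ 4 : RatFunc ℝ) ≠ 0 := by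
      have : (1 - RatFunc.X ^ 4 : RatFunc ℝ) = (1 - RatFunc.X ^ 2) * (1 + RatFunc.X ^ 2) := by
        ring
      rw [this]
      exact mul_ne_zero one_sub_X_sq_ne (one_add_sq_ne _)
    have e4 : W = 0 := by
      have : (1 - RatFunc.X ^ 4) * W ^ 2 = 0 := by
        rw [h1]
        simp
      simpa using (mul_eq_zero.1 this).resolve_left e3
    rw [e4] at hW1
    have e5 := hW1.uniq Val.zero
    have : (0 : ℝ) < (n : ℝ) + 1 := by positivity
    linarith
  obtain ⟨P, Q, V, q, hsol, hQ0, hZe, hWe⟩ := exists_sol h1 hZ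
  obtain ⟨hV1, hP1⟩ := hsol.at_one
  have hQ1 := hsol.Q_ne (x := 1) (by norm_num) (by norm_num)
  set ι := algebraMap ℝ[X] (RatFunc ℝ) with hι
  have hinj : Function.Injective ι := IsFractionRing.injective ℝ[X] (RatFunc ℝ)
  have hQne : ι Q ≠ 0 := (map_ne_zero_iff _ hinj).2 hQ0
  have hXe : ι X = RatFunc.X := RatFunc.algebraMap_X
  have eC : ∀ r : ℝ, ι (C r) = RatFunc.C r := fun r => RatFunc.algebraMap_C r
  -- `q ^ 2 = (n + 1) ^ 2`
  have hq : q ^ 2 = ((n : ℝ) + 1) ^ 2 := by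
    have e1 : Val (ι V) (((n : ℝ) + 1) * (Q.eval 1) ^ 2) := by
      rw [← hWe]
      exact hW1.mul ((Val.poly Q).pow 2)
    have e2 : V.eval 1 = ((n : ℝ) + 1) * (Q.eval 1) ^ 2 := (Val.poly V).uniq e1
    rw [e2] at hV1
    have h10 : Q.eval 1 ^ 4 ≠ 0 := pow_ne_zero _ hQ1
    apply mul_right_cancel₀ h10
    linear_combination -hV1
  have hsum : (ι Q ^ 2 + ι P ^ 2) ≠ 0 := by
    intro h
    exact hQne (sum_sq_eq_zero h).1
  set H : RatFunc ℝ := (1 - Z ^ 2) / (1 - RatFunc.X ^ 2) with hH'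
  have h2 : H * (1 - RatFunc.X ^ 2) = 1 - Z ^ 2 := div_mul_cancel₀ _ one_sub_X_sq_ne
  have hH : H * (ι Q ^ 2 * (ι Q ^ 2 + ι P ^ 2)) = (1 + RatFunc.X ^ 2) * ι V ^ 2 := by
    have e1 : ι V ^ 2 * (1 - RatFunc.X ^ 4) = ι Q ^ 4 - ι P ^ 4 := by
      have := congrArg ι hsol.eqn
      simpa [hι] using this
    have e2 : H * (1 - RatFunc.X ^ 2) * ι Q ^ 2 = ι Q ^ 2 - ι P ^ 2 := by
      rw [h2, hZe]
      field_simp
    apply mul_left_cancel₀ one_sub_X_sq_ne
    linear_combination (ι Q ^ 2 + ι P ^ 2) * e2 - e1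
  set M : ℝ[X] := Q ^ 2 * (Q ^ 2 + P ^ 2) with hM
  set N : ℝ[X] := (1 + X ^ 2) * V ^ 2 with hN
  have hHM : H * ι M = ι N := by
    simp only [hM, hN, map_mul, map_pow, map_add, map_one, hXe]
    exact hH
  have hMx : ∀ x, 0 ≤ M.eval x := by
    intro x
    simp only [hM, eval_mul, eval_pow, eval_add]
    positivity
  have hNx : ∀ x, 0 ≤ N.eval x := by
    intro x
    simp only [hN, eval_mul, eval_pow, eval_add, eval_X, eval_one]
    positivity
  have hMN : ∀ x, 0 < M.eval x + N.eval x := by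
    intro x
    by_cases hQx : Q.eval x = 0
    · have hVx : V.eval x ≠ 0 := by
        intro hVx
        have := hsol.eqn_eval x
        rw [hVx, hQx] at this
        apply hsol.not_both x _ hQx
        have h3 : P.eval x ^ 4 = 0 := by linarith
        simpa using h3
      have h3 : 0 < N.eval x := by
        simp only [hN, eval_mul, eval_pow, eval_add, eval_X, eval_one]
        positivity
      linarith [hMx x]
    · have h3 : 0 < M.eval x := by
        simp only [hM, eval_mul, eval_pow, eval_add]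
        positivity
      linarith [hNx x]
  obtain ⟨R, hR⟩ : ∃ R, C (((n : ℝ) + 1) ^ 2) * M - N = (X - 1) * R := by
    have h3 : IsRoot (C (((n : ℝ) + 1) ^ 2) * M - N) 1 := by
      simp only [IsRoot, hM, hN, eval_sub, eval_mul, eval_pow, eval_add, eval_C, eval_X, eval_one]
      rw [hV1, hP1, hq]
      ring
    obtain ⟨R, hR⟩ := dvd_iff_isRoot.2 h3
    exact ⟨R, by rw [hR, C_1]⟩
  obtain ⟨γ, hγ⟩ := exists_bound M N R (((n : ℝ) + 1) ^ 2) hMx hNx hMN (by positivity) hR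
  set E : ℝ[X] := C γ * (X - 1) ^ 2 * (M + N) ^ 2 -
    (1 + X ^ 2) * (C (((n : ℝ) + 1) ^ 2) * M - N) ^ 2 with hE
  have hEx : ∀ x, 0 ≤ E.eval x := by
    intro x
    rw [hE, hR]
    simp only [eval_sub, eval_mul, eval_pow, eval_add, eval_C, eval_X, eval_one]
    have h3 := hγ x
    nlinarith [mul_le_mul_of_nonneg_left h3 (sq_nonneg (x - 1))]
  obtain ⟨a0, b0, hab⟩ := sos_of_nonneg _ E le_rfl hEx
  have hM0 : ι M ≠ 0 := by
    simp only [hM, map_mul, map_pow, map_add]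
    exact mul_ne_zero (pow_ne_zero _ hQne) hsum
  refine ⟨Z, W, H, ι a0 / ι M, ι b0 / ι M, γ, h1, h2, ?_⟩
  have h4 : ι E = ι a0 ^ 2 + ι b0 ^ 2 := by
    rw [hab]
    simp
  have h5 : ι E = RatFunc.C γ * (RatFunc.X - 1) ^ 2 * (ι M + ι N) ^ 2 -
      (1 + RatFunc.X ^ 2) * (RatFunc.C ((n : ℝ) + 1) ^ 2 * ι M - ι N) ^ 2 := by
    simp only [hE, map_sub, map_mul, map_pow, map_add, map_one, eC, hXe]
  have hM2 : ι M ^ 2 ≠ 0 := pow_ne_zero _ hM0
  apply mul_left_cancel₀ hM2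
  rw [h4, ← hHM] at h5
  field_simp
  linear_combination -h5

theorem complete (n : ℕ) : ∃ (Z W H a b : RatFunc ℝ) (γ : ℝ),
    (1 - RatFunc.X ^ 4) * W ^ 2 = 1 - Z ^ 4 ∧
    H * (1 - RatFunc.X ^ 2) = 1 - Z ^ 2 ∧
    RatFunc.C γ * (RatFunc.X - 1) ^ 2 * (1 + H) ^ 2 =
      (1 + RatFunc.X ^ 2) * (RatFunc.C (n : ℝ) ^ 2 - H) ^ 2 + (a ^ 2 + b ^ 2) := by
  rcases n with _ | n
  · refine ⟨1, 0, 0, RatFunc.X - 1, 0, 1, by ring, by ring, ?_⟩
    simp
  · have := complete_pos n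
    push_cast
    exact this

end

end Pool.Agent.H699R2
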