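import Pool.Agent.H306R2.RG.Defs
import Pool.Agent.H306R2.RG.StubsA
import Pool.Agent.H435R2.RZ_P7
import Pool.Agent.H66R2.RZ_P4

set_option autoImplicit false

/-! Project RG, tasks DEC8, DEC4, DEC1, DEC11. The theorems `DEC8_of`, `DEC4_of`, `DEC1_of`,
`DEC11_of` take PG, PH, ZPG, FE3 as hypotheses. -/

namespace Pool.Agent.H699R2.RG_DEC

open Finset Filter Topology MeasureTheory Pool.Agent.H306R2.RZ Pool.Agent.H306R2.RG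
open Pool.Agent.H306R2.RG.StubsA (Fme bb8 bb4 bb1 bb2 FF1 gz)

noncomputable section

theorem gen_split (F : ℝ → ℝ) (b : ℤ → ℝ) (c X : ℝ) (n : ℕ) (hn : Odd n)
    (hs : Summable (fun k : ℤ => b k * Gk k n * Ft F (c * k * X / n))) :
    (∑' k : ℤ, b k * Gk k n * Ft F (c * k * X / n)) / n =
      b 0 * (Ft F 0 * (if IsSquare n then (n.totient : ℝ) / n else 0)) +
      (∑' j : ℕ, b (((j : ℤ) + 1) ^ 2) * Gk (((j : ℤ) + 1) ^ 2) n *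
        Ft F (c * ((j : ℝ) + 1) ^ 2 * X / n)) / n + Dng F b c X n := by
  rw [Pool.Agent.H435R2.RZ_P7.tsum_split _ hs, add_div, add_div]
  unfold Dng
  congr 1
  congr 1
  · rw [Pool.Agent.H66R2.RZP4.P4a n hn]
    simp only [Int.cast_zero, mul_zero, zero_mul, zero_div]
    split_ifs
    · ring
    · ring
  · congr 1
    refine tsum_congr fun j => ?_
    push_cast
    rfl

theorem abs_bb8 (k : ℤ) : |bb8 k| ≤ 1 := by
  unfold bb8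
  rw [abs_pow, abs_neg, abs_one, one_pow]

theorem abs_bb4 (k : ℤ) : |bb4 k| ≤ 1 := by
  unfold bb4
  split_ifs <;> simp

theorem abs_bb1 (k : ℤ) : |bb1 k| ≤ 1 := by
  unfold bb1
  split_ifs <;> simp

theorem abs_bb2 (k : ℤ) : |bb2 k| ≤ 1 := by
  unfold bb2
  split_ifs <;> simp

theorem bb8_zero : bb8 0 = 1 := by simp [bb8]
theorem bb4_zero : bb4 0 = 1 := by simp [bb4]
theorem bb1_zero : bb1 0 = 1 := by simp [bb1]
theorem bb2_zero : bb2 0 = 0 := by simp [bb2]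

theorem DEC8_of
    (PG8 : ∀ (ε : ℤ) (_ : ε = 1 ∨ ε = -1) (F : ℝ → ℝ) (_ : TF F) (X : ℝ) (_ : 0 < X) (n : ℕ)
      (_ : Odd n),
      Summable (fun k : ℤ => bb8 k * Gk k n * Ft F ((ε : ℝ) / 2 * k * X / n)) ∧
      EAg (F8 ε) F X (fun d => js ((F8 ε).e * (d : ℤ)) n) =
        1 / 2 * ((∑' k : ℤ, bb8 k * Gk k n * Ft F ((ε : ℝ) / 2 * k * X / n)) / n))
    (PH8 : ∀ (ε : ℤ) (_ : ε = 1 ∨ ε = -1) (F : ℝ → ℝ) (_ : TF F), ∃ H : ℂ → ℂ,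
      HP H (-(1 / 4 * Ft F 0)) ∧ ∀ X : ℝ, 0 < X → ∀ n : ℕ, Odd n → ∀ σ0 : ℝ, 1 / 2 < σ0 → σ0 ≤ 1 →
        ((1 / 2 * ((∑' j : ℕ, bb8 (((j : ℤ) + 1) ^ 2) * Gk (((j : ℤ) + 1) ^ 2) n *
          Ft F ((ε : ℝ) / 2 * ((j : ℝ) + 1) ^ 2 * X / n)) / n) : ℝ) : ℂ) = Dsg H X n σ0)
    (ε : ℤ) (hε : ε = 1 ∨ ε = -1) (F : ℝ → ℝ) (hF : TF F) : DEC (F8 ε) F := by
  obtain ⟨H, hH, hH2⟩ := PH8 ε hε F hF
  have hε0 : (ε : ℝ) ≠ 0 := by
    rcases hε with h | h <;> rw [h] <;> norm_num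
  refine ⟨H, bb8, fun _ => 0, (ε : ℝ) / 2, 1, 1 / 2, 0, ?_, abs_bb8, fun _ => by simp, ?_,
    one_ne_zero, ?_⟩
  · have : (F8 ε).δ = 1 / 2 := rfl
    rw [this]
    convert hH using 2
    ring
  · exact div_ne_zero hε0 two_ne_zero
  intro X hX n hn σ0 h0 h1
  obtain ⟨hs, he⟩ := PG8 ε hε F hF X hX n hn
  have hδ : (F8 ε).δ = 1 / 2 := rfl
  rw [he, gen_split F bb8 _ X n hn hs, bb8_zero, ← hH2 X hX n hn σ0 h0 h1, hδ]
  push_cast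
  ring

theorem DEC4_of
    (PG4 : ∀ (ε : ℤ) (_ : ε = 1 ∨ ε = -1) (F : ℝ → ℝ) (_ : TF F) (X : ℝ) (_ : 0 < X) (n : ℕ)
      (_ : Odd n),
      Summable (fun k : ℤ => bb4 k * Gk k n * Ft F ((ε : ℝ) / 4 * k * X / n)) ∧
      EAg (F4 ε) F X (fun d => js ((F4 ε).e * (d : ℤ)) n) =
        1 / 4 * ((∑' k : ℤ, bb4 k * Gk k n * Ft F ((ε : ℝ) / 4 * k * X / n)) / n))
    (PH4 : ∀ (ε : ℤ) (_ : ε = 1 ∨ ε = -1) (F : ℝ → ℝ) (_ : TF F), ∃ H : ℂ → ℂ,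
      HP H (-(1 / 8 * Ft F 0)) ∧ ∀ X : ℝ, 0 < X → ∀ n : ℕ, Odd n → ∀ σ0 : ℝ, 1 / 2 < σ0 → σ0 ≤ 1 →
        ((1 / 4 * ((∑' j : ℕ, bb4 (((j : ℤ) + 1) ^ 2) * Gk (((j : ℤ) + 1) ^ 2) n *
          Ft F ((ε : ℝ) / 4 * ((j : ℝ) + 1) ^ 2 * X / n)) / n) : ℝ) : ℂ) = Dsg H X n σ0)
    (ε : ℤ) (hε : ε = 1 ∨ ε = -1) (F : ℝ → ℝ) (hF : TF F) : DEC (F4 ε) F := by
  obtain ⟨H, hH, hH2⟩ := PH4 ε hε F hF
  have hε0 : (ε : ℝ) ≠ 0 := by
    rcases hε with h | h <;> rw [h] <;> norm_num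
  refine ⟨H, bb4, fun _ => 0, (ε : ℝ) / 4, 1, 1 / 4, 0, ?_, abs_bb4, fun _ => by simp, ?_,
    one_ne_zero, ?_⟩
  · have : (F4 ε).δ = 1 / 4 := rfl
    rw [this]
    convert hH using 2
    ring
  · exact div_ne_zero hε0 four_ne_zero
  intro X hX n hn σ0 h0 h1
  obtain ⟨hs, he⟩ := PG4 ε hε F hF X hX n hn
  have hδ : (F4 ε).δ = 1 / 4 := rfl
  rw [he, gen_split F bb4 _ X n hn hs, bb4_zero, ← hH2 X hX n hn σ0 h0 h1, hδ]
  push_cast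
  ring

theorem two_cpow_neg_one : (2 : ℂ) ^ (-(2 * (1 / 2 : ℂ))) = 1 / 2 := by
  have : (-(2 * (1 / 2 : ℂ))) = -1 := by norm_num
  rw [this, Complex.cpow_neg_one]
  norm_num

theorem four_cpow_half : (4 : ℂ) ^ (1 / 2 : ℂ) = 2 := by
  have h := Complex.ofReal_cpow (x := (4 : ℝ)) (by norm_num) (1 / 2 : ℝ)
  have h2 : (4 : ℝ) ^ (1 / 2 : ℝ) = 2 := by
    rw [← Real.sqrt_eq_rpow, show (4 : ℝ) = 2 ^ 2 by norm_num, Real.sqrt_sq (by norm_num)]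
  rw [h2] at h
  push_cast at h
  exact h.symm

theorem eight_cpow_half : (8 : ℂ) ^ (1 / 2 : ℂ) = 2 * (Real.sqrt 2 : ℂ) := by
  have h := Complex.ofReal_cpow (x := (8 : ℝ)) (by norm_num) (1 / 2 : ℝ)
  have h2 : (8 : ℝ) ^ (1 / 2 : ℝ) = 2 * Real.sqrt 2 := by
    rw [← Real.sqrt_eq_rpow, show (8 : ℝ) = 2 ^ 2 * 2 by norm_num,
      Real.sqrt_mul (by norm_num), Real.sqrt_sq (by norm_num)]
  rw [h2] at h
  push_cast at h
  exact h.symm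

theorem gz_half (η : ℝ) : gz η (1 / 2) = (1 + (η : ℂ)) / 4 := by
  unfold gz
  rw [four_cpow_half, eight_cpow_half, two_cpow_neg_one]
  have h : (Real.sqrt 2 : ℂ) * (Real.sqrt 2 : ℂ) = 2 := by
    rw [← Complex.ofReal_mul, Real.mul_self_sqrt (by norm_num)]
    norm_num
  have : (η : ℂ) * (Real.sqrt 2 : ℂ) * (2 * (Real.sqrt 2 : ℂ)) * (1 - 1 / 2) =
      (η : ℂ) * ((Real.sqrt 2 : ℂ) * (Real.sqrt 2 : ℂ)) := by ring
  rw [this, h]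
  ring

theorem Dsg_congr (H1 H2 : ℂ → ℂ) (X : ℝ) (n : ℕ) (σ0 : ℝ)
    (h : ∀ t : ℝ, H1 ((σ0 : ℂ) + t * Complex.I) = H2 ((σ0 : ℂ) + t * Complex.I)) :
    Dsg H1 X n σ0 = Dsg H2 X n σ0 := by
  unfold Dsg
  congr 1
  refine integral_congr_ae (Filter.Eventually.of_forall fun t => ?_)
  simp only [h t]

theorem EAg_congr_A (φ ψ : FD) (F : ℝ → ℝ) (X : ℝ) (f : ℕ → ℝ) (h : ∀ d, φ.A d ↔ ψ.A d) :
    EAg φ F X f = EAg ψ F X f := by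
  unfold EAg
  congr 1
  refine tsum_congr fun d => ?_
  by_cases h1 : φ.A d
  · rw [if_pos h1, if_pos ((h d).1 h1)]
  · rw [if_neg h1, if_neg (fun h2 => h1 ((h d).2 h2))]

theorem sq_mod8 (r : ℤ) : (r * r) % 8 = 0 ∨ (r * r) % 8 = 1 ∨ (r * r) % 8 = 4 := by
  have h : r % 8 = 0 ∨ r % 8 = 1 ∨ r % 8 = 2 ∨ r % 8 = 3 ∨ r % 8 = 4 ∨ r % 8 = 5 ∨ r % 8 = 6 ∨
      r % 8 = 7 := by omega
  rw [Int.mul_emod]
  rcases h with h | h | h | h | h | h | h | h <;> rw [h] <;> norm_num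

theorem A_iff (ε c : ℤ) (h : (ε = 1 ∧ c = 5) ∨ (ε = -1 ∧ (c = 5 ∨ c = 1))) (d : ℕ) :
    (F1 ε c).A d ↔ (FF1 ε c).A d := by
  show ((ε * (d : ℤ)) % 8 = c ∧ ¬ IsSquare (ε * (d : ℤ))) ↔ (ε * (d : ℤ)) % 8 = c
  constructor
  · exact fun h => h.1
  · intro h1
    refine ⟨h1, ?_⟩
    rintro ⟨r, hr⟩
    rcases h with ⟨h2, h3⟩ | ⟨h2, h3⟩
    · rw [hr] at h1
      have := sq_mod8 r
      omega
    · rw [h2] at hr h1
      have h4 : 0 ≤ r * r := mul_self_nonneg r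
      have h5 : (d : ℤ) = 0 := by omega
      rw [h5] at h1
      omega

theorem ofReal_half : (((1 / 2 : ℝ)) : ℂ) = 1 / 2 := by push_cast; rfl

theorem line_ne (σ0 : ℝ) (h0 : 1 / 2 < σ0) (t : ℝ) :
    0 < ((σ0 : ℂ) + t * Complex.I).re ∧ ((σ0 : ℂ) + t * Complex.I) ≠ 1 / 2 := by
  have hre : ((σ0 : ℂ) + t * Complex.I).re = σ0 := by simp
  constructor
  · rw [hre]; linarith
  · intro h
    have h2 : ((σ0 : ℂ) + t * Complex.I).re = (1 / 2 : ℂ).re := by rw [h]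
    rw [hre, ← ofReal_half, Complex.ofReal_re] at h2
    linarith

/-- common part -/
theorem main1
    (ZPG : ∀ (g : ℂ → ℂ) (z : ℝ) (_ : HP g z), ∃ H : ℂ → ℂ, HP H (-(z / 2)) ∧
      ∀ s : ℂ, 0 < s.re → s ≠ 1 / 2 → g s * riemannZeta (2 * s) = H s + g (1 / 2) / 2 * Eh s)
    (PG1 : ∀ (ε c : ℤ) (_ : ε = 1 ∨ ε = -1) (_ : c = 1 ∨ c = 5) (F : ℝ → ℝ) (_ : TF F) (X : ℝ)
      (_ : 0 < X) (n : ℕ) (_ : Odd n),
      Summable (fun k : ℤ => bb1 k * Gk k n * Ft F ((ε : ℝ) / 4 * k * X / n)) ∧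
      Summable (fun k : ℤ => bb2 k * Gk k n * Ft F ((ε : ℝ) / 8 * k * X / n)) ∧
      EAg (FF1 ε c) F X (fun d => js (ε * (d : ℤ)) n) =
        1 / 8 * ((∑' k : ℤ, bb1 k * Gk k n * Ft F ((ε : ℝ) / 4 * k * X / n)) / n) +
        (FF1 ε c).η * Real.sqrt 2 / 8 *
          ((∑' k : ℤ, bb2 k * Gk k n * Ft F ((ε : ℝ) / 8 * k * X / n)) / n))
    (PH1 : ∀ (ε : ℤ) (_ : ε = 1 ∨ ε = -1) (η : ℝ) (_ : η = 1 ∨ η = -1) (F : ℝ → ℝ) (_ : TF F),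
      HP (fun s => gz η s * Fme ε F s) (1 / 8 * Ft F 0) ∧
      ∀ X : ℝ, 0 < X → ∀ n : ℕ, Odd n → ∀ σ0 : ℝ, 1 / 2 < σ0 → σ0 ≤ 1 →
        ((1 / 8 * ((∑' j : ℕ, bb1 (((j : ℤ) + 1) ^ 2) * Gk (((j : ℤ) + 1) ^ 2) n *
          Ft F ((ε : ℝ) / 4 * ((j : ℝ) + 1) ^ 2 * X / n)) / n) +
          η * Real.sqrt 2 / 8 * ((∑' j : ℕ, bb2 (((j : ℤ) + 1) ^ 2) * Gk (((j : ℤ) + 1) ^ 2) n *
          Ft F ((ε : ℝ) / 8 * ((j : ℝ) + 1) ^ 2 * X / n)) / n) : ℝ) : ℂ) =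
        Dsg (fun s => gz η s * Fme ε F s * riemannZeta (2 * s)) X n σ0)
    (ε c : ℤ) (hε : ε = 1 ∨ ε = -1) (hc : c = 1 ∨ c = 5) (F : ℝ → ℝ) (hF : TF F) :
    ∃ H : ℂ → ℂ, HP H (-(1 / 8 / 2 * Ft F 0)) ∧
      ∀ X : ℝ, 0 < X → ∀ n : ℕ, Odd n → ∀ σ0 : ℝ, 1 / 2 < σ0 → σ0 ≤ 1 →
      ((EAg (FF1 ε c) F X (fun d => js (ε * (d : ℤ)) n) : ℝ) : ℂ) =
        ((1 / 8 * Ft F 0 * (if IsSquare n then (n.totient : ℝ) / n else 0) : ℝ) : ℂ) +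
        Dsg (fun s => H s + gz (FF1 ε c).η (1 / 2) * Fme ε F (1 / 2) / 2 * Eh s) X n σ0 +
        ((1 / 8 * Dng F bb1 ((ε : ℝ) / 4) X n +
          (FF1 ε c).η * Real.sqrt 2 / 8 * Dng F bb2 ((ε : ℝ) / 8) X n : ℝ) : ℂ) := by
  have hη : (FF1 ε c).η = 1 ∨ (FF1 ε c).η = -1 := by
    show (if c = 1 then (1 : ℝ) else -1) = 1 ∨ (if c = 1 then (1 : ℝ) else -1) = -1
    split_ifs
    · exact Or.inl rfl
    · exact Or.inr rfl
  obtain ⟨hP, hP2⟩ := PH1 ε hε (FF1 ε c).η hη F hF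
  obtain ⟨H, hH, hH2⟩ := ZPG _ _ hP
  refine ⟨H, ?_, ?_⟩
  · convert hH using 2
    ring
  intro X hX n hn σ0 h0 h1
  obtain ⟨hs1, hs2, he⟩ := PG1 ε c hε hc F hF X hX n hn
  have hD : Dsg (fun s => H s + gz (FF1 ε c).η (1 / 2) * Fme ε F (1 / 2) / 2 * Eh s) X n σ0 =
      Dsg (fun s => gz (FF1 ε c).η s * Fme ε F s * riemannZeta (2 * s)) X n σ0 := by
    refine Dsg_congr _ _ _ _ _ fun t => ?_
    obtain ⟨h2, h3⟩ := line_ne σ0 h0 t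
    exact (hH2 _ h2 h3).symm
  rw [hD, ← hP2 X hX n hn σ0 h0 h1, he, gen_split F bb1 _ X n hn hs1,
    gen_split F bb2 _ X n hn hs2, bb1_zero, bb2_zero]
  push_cast
  ring

theorem DEC1_of
    (FE3 : ∀ (F : ℝ → ℝ) (_ : TF F), Fme (-1) F (1 / 2) = 0 ∧
      Fme 1 F (1 / 2) = ((4 * rh0 F : ℝ) : ℂ))
    (ZPG : ∀ (g : ℂ → ℂ) (z : ℝ) (_ : HP g z), ∃ H : ℂ → ℂ, HP H (-(z / 2)) ∧
      ∀ s : ℂ, 0 < s.re → s ≠ 1 / 2 → g s * riemannZeta (2 * s) = H s + g (1 / 2) / 2 * Eh s)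
    (PG1 : ∀ (ε c : ℤ) (_ : ε = 1 ∨ ε = -1) (_ : c = 1 ∨ c = 5) (F : ℝ → ℝ) (_ : TF F) (X : ℝ)
      (_ : 0 < X) (n : ℕ) (_ : Odd n),
      Summable (fun k : ℤ => bb1 k * Gk k n * Ft F ((ε : ℝ) / 4 * k * X / n)) ∧
      Summable (fun k : ℤ => bb2 k * Gk k n * Ft F ((ε : ℝ) / 8 * k * X / n)) ∧
      EAg (FF1 ε c) F X (fun d => js (ε * (d : ℤ)) n) =
        1 / 8 * ((∑' k : ℤ, bb1 k * Gk k n * Ft F ((ε : ℝ) / 4 * k * X / n)) / n) +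
        (FF1 ε c).η * Real.sqrt 2 / 8 *
          ((∑' k : ℤ, bb2 k * Gk k n * Ft F ((ε : ℝ) / 8 * k * X / n)) / n))
    (PH1 : ∀ (ε : ℤ) (_ : ε = 1 ∨ ε = -1) (η : ℝ) (_ : η = 1 ∨ η = -1) (F : ℝ → ℝ) (_ : TF F),
      HP (fun s => gz η s * Fme ε F s) (1 / 8 * Ft F 0) ∧
      ∀ X : ℝ, 0 < X → ∀ n : ℕ, Odd n → ∀ σ0 : ℝ, 1 / 2 < σ0 → σ0 ≤ 1 →
        ((1 / 8 * ((∑' j : ℕ, bb1 (((j : ℤ) + 1) ^ 2) * Gk (((j : ℤ) + 1) ^ 2) n *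
          Ft F ((ε : ℝ) / 4 * ((j : ℝ) + 1) ^ 2 * X / n)) / n) +
          η * Real.sqrt 2 / 8 * ((∑' j : ℕ, bb2 (((j : ℤ) + 1) ^ 2) * Gk (((j : ℤ) + 1) ^ 2) n *
          Ft F ((ε : ℝ) / 8 * ((j : ℝ) + 1) ^ 2 * X / n)) / n) : ℝ) : ℂ) =
        Dsg (fun s => gz η s * Fme ε F s * riemannZeta (2 * s)) X n σ0)
    (F : ℝ → ℝ) (hF : TF F) :
    DEC (F1 1 5) F ∧ DEC (F1 (-1) 5) F ∧ DEC (F1 (-1) 1) F := by
  have key : ∀ (ε c : ℤ) (_ : ε = 1 ∨ ε = -1) (_ : c = 1 ∨ c = 5)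
      (_ : (ε = 1 ∧ c = 5) ∨ (ε = -1 ∧ (c = 5 ∨ c = 1)))
      (_ : gz (FF1 ε c).η (1 / 2) * Fme ε F (1 / 2) = 0), DEC (F1 ε c) F := by
    intro ε c hε hc hA h0
    obtain ⟨H, hH, hH2⟩ := main1 ZPG PG1 PH1 ε c hε hc F hF
    have hε0 : (ε : ℝ) ≠ 0 := by
      rcases hε with h | h <;> rw [h] <;> norm_num
    refine ⟨H, bb1, bb2, (ε : ℝ) / 4, (ε : ℝ) / 8, 1 / 8, (FF1 ε c).η * Real.sqrt 2 / 8, hH,
      abs_bb1, abs_bb2, div_ne_zero hε0 (by norm_num), div_ne_zero hε0 (by norm_num), ?_⟩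
    intro X hX n hn σ0 h1 h2
    have e1 : EAg (F1 ε c) F X (fun d => js ((F1 ε c).e * (d : ℤ)) n) =
        EAg (FF1 ε c) F X (fun d => js (ε * (d : ℤ)) n) :=
      EAg_congr_A _ _ F X _ (A_iff ε c hA)
    rw [e1, hH2 X hX n hn σ0 h1 h2, h0]
    simp only [zero_div, zero_mul, add_zero]
    rfl
  obtain ⟨hF3, -⟩ := FE3 F hF
  have g5 : ∀ ε : ℤ, gz (FF1 ε 5).η (1 / 2) = 0 := by
    intro ε
    have : (FF1 ε 5).η = -1 := by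
      show (if (5 : ℤ) = 1 then (1 : ℝ) else -1) = -1
      norm_num
    rw [this, gz_half]
    push_cast
    norm_num
  refine ⟨?_, ?_, ?_⟩
  · refine key 1 5 (by norm_num) (by norm_num) (by norm_num) ?_
    rw [g5, zero_mul]
  · refine key (-1) 5 (by norm_num) (by norm_num) (by norm_num) ?_
    rw [g5, zero_mul]
  · refine key (-1) 1 (by norm_num) (by norm_num) (by norm_num) ?_
    rw [hF3, mul_zero]

/-! ### the squares -/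

theorem isSquare_cast (d : ℕ) : IsSquare (1 * (d : ℤ)) ↔ IsSquare d := by
  rw [one_mul]
  constructor
  · rintro ⟨r, hr⟩
    refine ⟨r.natAbs, ?_⟩
    have := congrArg Int.natAbs hr
    rwa [Int.natAbs_natCast, Int.natAbs_mul] at this
  · rintro ⟨r, hr⟩
    exact ⟨(r : ℤ), by rw [hr]; push_cast; rfl⟩

theorem fin_supp (F : ℝ → ℝ) (hF : TF F) (X : ℝ) (hX : 0 < X) :
    ∃ N : ℕ, ∀ d : ℕ, N ≤ d → F ((d : ℝ) / X) = 0 := by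
  obtain ⟨R, hR⟩ := hF.cpt.isCompact.isBounded.subset_closedBall 0
  obtain ⟨N, hN⟩ := exists_nat_gt (R * X)
  refine ⟨N, fun d hd => ?_⟩
  by_contra h
  have h1 : ((d : ℝ) / X) ∈ tsupport F := subset_tsupport F h
  have h2 := hR h1
  rw [mem_closedBall_zero_iff, Real.norm_eq_abs] at h2
  have h3 : (d : ℝ) / X ≤ R := (le_abs_self _).trans h2
  rw [div_le_iff₀ hX] at h3
  have h4 : (N : ℝ) ≤ d := by exact_mod_cast hd
  linarith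

theorem summ_of (F : ℝ → ℝ) (hF : TF F) (X : ℝ) (hX : 0 < X) (g : ℕ → ℝ) :
    Summable (fun d : ℕ => F ((d : ℝ) / X) * g d) := by
  obtain ⟨N, hN⟩ := fin_supp F hF X hX
  refine summable_of_ne_finset_zero (s := range N) fun d hd => ?_
  rw [Finset.mem_range, not_lt] at hd
  rw [hN d hd, zero_mul]

theorem nat_sq_inj : Function.Injective (fun m : ℕ => m ^ 2) :=
  Nat.pow_left_injective (n := 2) (by norm_num)

theorem js_sq (m n : ℕ) (hn : n ≠ 0) :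
    js (1 * ((m ^ 2 : ℕ) : ℤ)) n = if m.Coprime n then 1 else 0 := by
  unfold js
  rw [one_mul]
  push_cast
  by_cases h : m.Coprime n
  · rw [if_pos h, jacobiSym.sq_one' (by rw [Int.gcd_natCast_natCast]; exact h)]
    norm_num
  · rw [if_neg h]
    haveI : NeZero n := ⟨hn⟩
    have h2 : jacobiSym (m : ℤ) n = 0 :=
      jacobiSym.eq_zero_iff_not_coprime.2 (by rw [Int.gcd_natCast_natCast]; exact h)
    rw [sq, jacobiSym.mul_left, h2]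
    norm_num

theorem EA_sub (F : ℝ → ℝ) (hF : TF F) (X : ℝ) (hX : 0 < X) (n : ℕ) (hn : Odd n) :
    EAg (F1 1 1) F X (fun d => js (1 * (d : ℤ)) n) =
      EAg (FF1 1 1) F X (fun d => js (1 * (d : ℤ)) n) - ESq F X n := by
  classical
  have hn0 : n ≠ 0 := by rintro rfl; exact absurd hn (by decide)
  unfold EAg ESq
  rw [← sub_div]
  congr 1
  have e1 : (∑' m : ℕ, if m.Coprime (2 * n) then F ((m : ℝ) ^ 2 / X) else 0) =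
      ∑' d : ℕ, if IsSquare d then
        (if (1 * (d : ℤ)) % 8 = 1 then F ((d : ℝ) / X) * js (1 * (d : ℤ)) n else 0) else 0 := by
    have h2 : (∑' m : ℕ, (fun d : ℕ => if IsSquare d then
        (if (1 * (d : ℤ)) % 8 = 1 then F ((d : ℝ) / X) * js (1 * (d : ℤ)) n else 0) else 0)
          (m ^ 2)) = ∑' d : ℕ, if IsSquare d then
        (if (1 * (d : ℤ)) % 8 = 1 then F ((d : ℝ) / X) * js (1 * (d : ℤ)) n else 0) else 0 := by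
      refine Function.Injective.tsum_eq (f := fun d : ℕ => if IsSquare d then
        (if (1 * (d : ℤ)) % 8 = 1 then F ((d : ℝ) / X) * js (1 * (d : ℤ)) n else 0) else 0)
        nat_sq_inj ?_
      intro k hk
      rw [Function.mem_support] at hk
      have hsq : IsSquare k := by
        by_contra hc
        exact hk (by simp [hc])
      obtain ⟨r, hr⟩ := hsq
      exact ⟨r, by rw [hr]; exact sq r⟩
    rw [← h2]
    refine tsum_congr fun m => ?_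
    have hsq : IsSquare (m ^ 2) := ⟨m, sq m⟩
    simp only [if_pos hsq]
    rw [js_sq m n hn0]
    have hmod : ((1 * ((m ^ 2 : ℕ) : ℤ)) % 8 = 1) ↔ m.Coprime 2 := by
      rw [Nat.coprime_two_right, one_mul]
      push_cast
      rw [sq]
      have h : m % 8 = 0 ∨ m % 8 = 1 ∨ m % 8 = 2 ∨ m % 8 = 3 ∨ m % 8 = 4 ∨ m % 8 = 5 ∨ m % 8 = 6 ∨
        m % 8 = 7 := by omega
      rw [Nat.odd_iff, Int.mul_emod]
      rcases h with h | h | h | h | h | h | h | h <;>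
        (have h' : (m : ℤ) % 8 = ((m % 8 : ℕ) : ℤ) := by omega
         rw [h', h]
         constructor
         · intro h5
           first
             | omega
             | (exfalso; revert h5; norm_num)
         · intro h5
           first
             | omega
             | norm_num)
    by_cases h3 : m.Coprime 2
    · rw [if_pos (hmod.2 h3)]
      by_cases h4 : m.Coprime n
      · rw [if_pos (Nat.Coprime.mul_right h3 h4), if_pos h4, mul_one]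
        push_cast
        rfl
      · rw [if_neg (fun h => h4 (Nat.Coprime.coprime_mul_left_right h)), if_neg h4, mul_zero]
    · rw [if_neg (fun h => h3 (hmod.1 h)),
        if_neg (fun h => h3 (Nat.Coprime.coprime_mul_right_right h))]
  rw [e1]
  have hs0 := summ_of F hF X hX (fun d => js (1 * (d : ℤ)) n)
  have hsA : ∀ (P : ℕ → Prop) [DecidablePred P],
      Summable (fun d : ℕ => if P d then F ((d : ℝ) / X) * js (1 * (d : ℤ)) n else 0) := by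
    intro P _
    refine Summable.of_norm_bounded hs0.norm fun d => ?_
    split_ifs
    · exact le_rfl
    · rw [norm_zero]; exact norm_nonneg _
  have hs1 : Summable (fun d : ℕ => if (FF1 1 1).A d then
      F ((d : ℝ) / X) * js (1 * (d : ℤ)) n else 0) := hsA _
  have hs2 : Summable (fun d : ℕ => if IsSquare d then
      (if (1 * (d : ℤ)) % 8 = 1 then F ((d : ℝ) / X) * js (1 * (d : ℤ)) n else 0) else 0) := by
    refine Summable.of_norm_bounded hs0.norm fun d => ?_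
    split_ifs
    · exact le_rfl
    · rw [norm_zero]; exact norm_nonneg _
    · rw [norm_zero]; exact norm_nonneg _
  rw [← hs1.tsum_sub hs2]
  refine tsum_congr fun d => ?_
  have hA1 : (F1 1 1).A d ↔ ((1 * (d : ℤ)) % 8 = 1 ∧ ¬ IsSquare (1 * (d : ℤ))) := Iff.rfl
  have hA2 : (FF1 1 1).A d ↔ ((1 * (d : ℤ)) % 8 = 1) := Iff.rfl
  have hA3 := isSquare_cast d
  by_cases h5 : (1 * (d : ℤ)) % 8 = 1
  · rw [if_pos (hA2.2 h5)]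
    simp only [if_pos h5]
    by_cases h6 : IsSquare d
    · rw [if_neg (fun h => (hA1.1 h).2 (hA3.2 h6)), if_pos h6, sub_self]
    · rw [if_pos (hA1.2 ⟨h5, fun h => h6 (hA3.1 h)⟩), if_neg h6, sub_zero]
  · rw [if_neg (fun h => h5 (hA2.1 h)), if_neg (fun h => h5 (hA1.1 h).1)]
    simp only [if_neg h5]
    split_ifs <;> simp

theorem DEC11_of
    (FE3 : ∀ (F : ℝ → ℝ) (_ : TF F), Fme (-1) F (1 / 2) = 0 ∧
      Fme 1 F (1 / 2) = ((4 * rh0 F : ℝ) : ℂ))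
    (ZPG : ∀ (g : ℂ → ℂ) (z : ℝ) (_ : HP g z), ∃ H : ℂ → ℂ, HP H (-(z / 2)) ∧
      ∀ s : ℂ, 0 < s.re → s ≠ 1 / 2 → g s * riemannZeta (2 * s) = H s + g (1 / 2) / 2 * Eh s)
    (PG1 : ∀ (ε c : ℤ) (_ : ε = 1 ∨ ε = -1) (_ : c = 1 ∨ c = 5) (F : ℝ → ℝ) (_ : TF F) (X : ℝ)
      (_ : 0 < X) (n : ℕ) (_ : Odd n),
      Summable (fun k : ℤ => bb1 k * Gk k n * Ft F ((ε : ℝ) / 4 * k * X / n)) ∧
      Summable (fun k : ℤ => bb2 k * Gk k n * Ft F ((ε : ℝ) / 8 * k * X / n)) ∧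
      EAg (FF1 ε c) F X (fun d => js (ε * (d : ℤ)) n) =
        1 / 8 * ((∑' k : ℤ, bb1 k * Gk k n * Ft F ((ε : ℝ) / 4 * k * X / n)) / n) +
        (FF1 ε c).η * Real.sqrt 2 / 8 *
          ((∑' k : ℤ, bb2 k * Gk k n * Ft F ((ε : ℝ) / 8 * k * X / n)) / n))
    (PH1 : ∀ (ε : ℤ) (_ : ε = 1 ∨ ε = -1) (η : ℝ) (_ : η = 1 ∨ η = -1) (F : ℝ → ℝ) (_ : TF F),
      HP (fun s => gz η s * Fme ε F s) (1 / 8 * Ft F 0) ∧
      ∀ X : ℝ, 0 < X → ∀ n : ℕ, Odd n → ∀ σ0 : ℝ, 1 / 2 < σ0 → σ0 ≤ 1 →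
        ((1 / 8 * ((∑' j : ℕ, bb1 (((j : ℤ) + 1) ^ 2) * Gk (((j : ℤ) + 1) ^ 2) n *
          Ft F ((ε : ℝ) / 4 * ((j : ℝ) + 1) ^ 2 * X / n)) / n) +
          η * Real.sqrt 2 / 8 * ((∑' j : ℕ, bb2 (((j : ℤ) + 1) ^ 2) * Gk (((j : ℤ) + 1) ^ 2) n *
          Ft F ((ε : ℝ) / 8 * ((j : ℝ) + 1) ^ 2 * X / n)) / n) : ℝ) : ℂ) =
        Dsg (fun s => gz η s * Fme ε F s * riemannZeta (2 * s)) X n σ0)
    (F : ℝ → ℝ) (hF : TF F) : DECr F := by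
  obtain ⟨H, hH, hH2⟩ := main1 ZPG PG1 PH1 1 1 (Or.inl rfl) (Or.inl rfl) F hF
  refine ⟨H, bb1, bb2, ((1 : ℤ) : ℝ) / 4, ((1 : ℤ) : ℝ) / 8, 1 / 8,
    (FF1 1 1).η * Real.sqrt 2 / 8, hH, abs_bb1, abs_bb2, by norm_num, by norm_num, ?_⟩
  intro X hX n hn σ0 h1 h2
  have e1 : EAg (F1 1 1) F X (fun d => js ((F1 1 1).e * (d : ℤ)) n) =
      EAg (FF1 1 1) F X (fun d => js (1 * (d : ℤ)) n) - ESq F X n := EA_sub F hF X hX n hn
  have hη : (FF1 1 1).η = 1 := by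
    show (if (1 : ℤ) = 1 then (1 : ℝ) else -1) = 1
    norm_num
  have hg : gz (FF1 1 1).η (1 / 2) * Fme 1 F (1 / 2) / 2 = (rh0 F : ℂ) := by
    rw [hη, gz_half, (FE3 F hF).2]
    push_cast
    ring
  have h3 := hH2 X hX n hn σ0 h1 h2
  rw [hg] at h3
  rw [e1, Complex.ofReal_sub, h3]
  have hδ : (F1 1 1).δ = 1 / 8 := rfl
  rw [hδ, hη]
  push_cast
  ring

/-! ### the four theorems (through the stubs PG, PH, ZPG, FE3) -/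

theorem DEC8 (ε : ℤ) (hε : ε = 1 ∨ ε = -1) (F : ℝ → ℝ) (hF : TF F) : DEC (F8 ε) F :=
  DEC8_of StubsA.PG8 StubsA.PH8 ε hε F hF

theorem DEC4 (ε : ℤ) (hε : ε = 1 ∨ ε = -1) (F : ℝ → ℝ) (hF : TF F) : DEC (F4 ε) F :=
  DEC4_of StubsA.PG4 StubsA.PH4 ε hε F hF

theorem DEC1 (F : ℝ → ℝ) (hF : TF F) :
    DEC (F1 1 5) F ∧ DEC (F1 (-1) 5) F ∧ DEC (F1 (-1) 1) F :=
  DEC1_of StubsA.FE3 StubsA.ZPG StubsA.PG1 StubsA.PH1 F hF

theorem DEC11 (F : ℝ → ℝ) (hF : TF F) : DECr F :=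
  DEC11_of StubsA.FE3 StubsA.ZPG StubsA.PG1 StubsA.PH1 F hF

end

end Pool.Agent.H699R2.RG_DEC
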