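import Pool.Agent.H699R2.Spec

/-!
# Transfer between `ℝ(t)` and `ℝ_alg(t)`
-/

open Filter Topology Polynomial

namespace Pool.Agent.H699R2

noncomputable section

theorem good_fintype {σ : Type} [Fintype σ] (φ : MvPolynomial σ RAlg →ₐ[RAlg] ℝ) : Good _ φ := by
  classical
  set e := MvPolynomial.renameEquiv RAlg (Fintype.equivFin σ) with he
  have h := good_equiv e (good_mv _ (φ.comp e.symm.toAlgHom))
  convert h using 1
  ext i
  simp

/-- the map `k[t] → B[t]` -/
def kap (B : Type) [CommRing B] [Algebra RAlg B] : (RAlg)[X] →+* B[X] :=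
  mapRingHom (algebraMap RAlg B)

theorem clear_denom {B : Type} [CommRing B] [Algebra RAlg B] {m : ℕ} (Ft : Fin m → B[X])
    (Gt : B[X]) (P : MvPolynomial (Fin m) (RAlg)[X]) :
    ∃ (N : ℕ) (H : B[X]), ∀ (K : Type) [Field K] (h : B[X] →+* K), h Gt ≠ 0 →
      h H = h Gt ^ N * MvPolynomial.eval₂ (h.comp (kap B)) (fun j => h (Ft j) / h Gt) P := by
  induction P using MvPolynomial.induction_on with
  | C a =>
    refine ⟨0, kap B a, fun K _ h hG => ?_⟩
    simp
  | add p q hp hq =>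
    obtain ⟨N1, H1, h1⟩ := hp
    obtain ⟨N2, H2, h2⟩ := hq
    refine ⟨N1 + N2, Gt ^ N2 * H1 + Gt ^ N1 * H2, fun K _ h hG => ?_⟩
    rw [map_add, map_mul, map_mul, map_pow, map_pow, h1 K h hG, h2 K h hG, MvPolynomial.eval₂_add]
    ring
  | mul_X p j hp =>
    obtain ⟨N1, H1, h1⟩ := hp
    refine ⟨N1 + 1, H1 * Ft j, fun K _ h hG => ?_⟩
    rw [map_mul, h1 K h hG, MvPolynomial.eval₂_mul, MvPolynomial.eval₂_X]
    field_simp
    ring

/-- `k[t] → ℝ(t)` -/
def tauR : (RAlg)[X] →+* RatFunc ℝ :=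
  (algebraMap ℝ[X] (RatFunc ℝ)).comp (mapRingHom (algebraMap RAlg ℝ))

/-- `k[t] → k(t)` -/
def tauA : (RAlg)[X] →+* RatFunc RAlg := algebraMap (RAlg)[X] (RatFunc RAlg)


theorem transfer (m : ℕ) (w : Fin m → RatFunc ℝ) :
    ∃ (ι : Type) (l : Filter ι) (_ : l.NeBot) (w' : ι → Fin m → RatFunc RAlg),
      ∀ P : MvPolynomial (Fin m) (RAlg)[X],
        ∀ᶠ i in l, (MvPolynomial.eval₂ tauA (w' i) P = 0 ↔ MvPolynomial.eval₂ tauR w P = 0) := by
  classical
  -- common denominator
  obtain ⟨⟨g, hg⟩, hint⟩ := IsLocalization.exist_integer_multiples (nonZeroDivisors ℝ[X])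
    (Finset.univ : Finset (Fin m)) w
  have hg0 : g ≠ 0 := nonZeroDivisors.ne_zero hg
  have hf : ∀ j, ∃ f : ℝ[X], algebraMap ℝ[X] (RatFunc ℝ) f = algebraMap ℝ[X] (RatFunc ℝ) g * w j := by
    intro j
    obtain ⟨f, hf⟩ := hint j (Finset.mem_univ j)
    refine ⟨f, ?_⟩
    rw [hf, Algebra.smul_def]
  choose f hf using hf
  -- degree bound
  obtain ⟨D, hDg, hDf⟩ : ∃ D : ℕ, g.natDegree < D ∧ ∀ j, (f j).natDegree < D := by
    refine ⟨g.natDegree + ∑ j, (f j).natDegree + 1, by omega, fun j => ?_⟩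
    have := Finset.single_le_sum (f := fun j => (f j).natDegree) (fun _ _ => Nat.zero_le _)
      (Finset.mem_univ j)
    omega
  let σ := Option (Fin m) × Fin D
  let v : σ → ℝ := fun s => match s with
    | (none, d) => g.coeff d
    | (some j, d) => (f j).coeff d
  let B := MvPolynomial σ RAlg
  let φ : B →ₐ[RAlg] ℝ := MvPolynomial.aeval v
  let Gt : B[X] := ∑ d : Fin D, C (MvPolynomial.X (none, d)) * X ^ (d : ℕ)
  let Ft : Fin m → B[X] := fun j => ∑ d : Fin D, C (MvPolynomial.X (some j, d)) * X ^ (d : ℕ)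
  have hsum : ∀ p : ℝ[X], p.natDegree < D → ∑ d : Fin D, C (p.coeff d) * X ^ (d : ℕ) = p := by
    intro p hp
    conv_rhs => rw [p.as_sum_range_C_mul_X_pow' hp]
    rw [Finset.sum_range]
  have hGt : Gt.map (φ : B →+* ℝ) = g := by
    simp only [Gt, Polynomial.map_sum, Polynomial.map_mul, map_C, Polynomial.map_pow, map_X]
    rw [← hsum g hDg]
    refine Finset.sum_congr rfl fun d _ => ?_
    congr 2
    exact MvPolynomial.aeval_X v _
  have hFt : ∀ j, (Ft j).map (φ : B →+* ℝ) = f j := by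
    intro j
    simp only [Ft, Polynomial.map_sum, Polynomial.map_mul, map_C, Polynomial.map_pow, map_X]
    rw [← hsum (f j) (hDf j)]
    refine Finset.sum_congr rfl fun d _ => ?_
    congr 2
    exact MvPolynomial.aeval_X v _
  obtain ⟨ι, l, hl, Φ, hker, hlim⟩ := good_fintype φ
  let a : B[X] →+* RatFunc ℝ := (algebraMap ℝ[X] (RatFunc ℝ)).comp (mapRingHom (φ : B →+* ℝ))
  let b : ι → B[X] →+* RatFunc RAlg := fun i =>
    (algebraMap (RAlg)[X] (RatFunc RAlg)).comp (mapRingHom (Φ i : B →+* RAlg))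
  have ha0 : ∀ H : B[X], a H = 0 ↔ H.map (φ : B →+* ℝ) = 0 := by
    intro H
    simp only [a, RingHom.comp_apply, coe_mapRingHom]
    exact map_eq_zero_iff _ (IsFractionRing.injective ℝ[X] (RatFunc ℝ))
  have hb0 : ∀ i (H : B[X]), b i H = 0 ↔ H.map (Φ i : B →+* RAlg) = 0 := by
    intro i H
    simp only [b, RingHom.comp_apply, coe_mapRingHom]
    exact map_eq_zero_iff _ (IsFractionRing.injective (RAlg)[X] (RatFunc RAlg))
  have hev : ∀ H : B[X], ∀ᶠ i in l, (b i H = 0 ↔ a H = 0) := by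
    intro H
    by_cases hH : a H = 0
    · filter_upwards [hker] with i hi
      simp only [hH, iff_true]
      rw [hb0]
      exact ker_transfer hi ((ha0 H).1 hH)
    · have h1 : H.map (φ : B →+* ℝ) ≠ 0 := fun h => hH ((ha0 H).2 h)
      obtain ⟨n, hn⟩ : ∃ n, φ (H.coeff n) ≠ 0 := by
        by_contra hcon
        push Not at hcon
        apply h1
        ext n
        simpa [coeff_map] using hcon n
      filter_upwards [(hlim (H.coeff n)).eventually_ne hn] with i hi
      simp only [hH, iff_false]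
      rw [hb0]
      intro h2
      apply hi
      have h3 := congrArg (fun p => p.coeff n) h2
      simp only [coeff_map, coeff_zero] at h3
      have h4 : Φ i (H.coeff n) = 0 := h3
      rw [h4]
      rfl
  refine ⟨ι, l, hl, fun i j => b i (Ft j) / b i Gt, fun P => ?_⟩
  obtain ⟨N, H, hH⟩ := clear_denom Ft Gt P
  have haG : a Gt ≠ 0 := by
    rw [Ne, ha0, hGt]
    exact hg0
  have hw : (fun j => a (Ft j) / a Gt) = w := by
    ext1 j
    have e1 : a (Ft j) = algebraMap ℝ[X] (RatFunc ℝ) (f j) := by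
      simp only [a, RingHom.comp_apply, coe_mapRingHom, hFt]
    have e2 : a Gt = algebraMap ℝ[X] (RatFunc ℝ) g := by
      simp only [a, RingHom.comp_apply, coe_mapRingHom, hGt]
    have e3 : algebraMap ℝ[X] (RatFunc ℝ) g ≠ 0 := by rwa [e2] at haG
    rw [e1, e2, hf j]
    field_simp
  have haτ : a.comp (kap B) = tauR := by
    apply Polynomial.ringHom_ext
    · intro c
      simp [a, kap, tauR]
    · simp [a, kap, tauR]
  have hbτ : ∀ i, (b i).comp (kap B) = tauA := by
    intro i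
    apply Polynomial.ringHom_ext
    · intro c
      simp [b, kap, tauA]
    · simp [b, kap, tauA]
  have h1 := hH (RatFunc ℝ) a haG
  rw [haτ, hw] at h1
  filter_upwards [hev H, hev Gt] with i hi hGi
  have hbG : b i Gt ≠ 0 := by
    rw [Ne, hGi]
    exact haG
  have h2 := hH (RatFunc RAlg) (b i) hbG
  rw [hbτ i] at h2
  have h3 : b i H = 0 ↔ MvPolynomial.eval₂ tauA (fun j => b i (Ft j) / b i Gt) P = 0 := by
    rw [h2, mul_eq_zero]
    constructor
    · rintro (h | h)
      · exact absurd h (pow_ne_zero _ hbG)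
      · exact h
    · exact Or.inr
  have h4 : a H = 0 ↔ MvPolynomial.eval₂ tauR w P = 0 := by
    rw [h1, mul_eq_zero]
    constructor
    · rintro (h | h)
      · exact absurd h (pow_ne_zero _ haG)
      · exact h
    · exact Or.inr
  rw [← h3, ← h4]
  exact hi

end

end Pool.Agent.H699R2
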