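import Pool.Agent.H699R2.U
import Pool.Agent.H699R2.Transfer
import Pool.Agent.H699R2.Sos

/-!
# The separating `Σ_2` property, semantically
-/

open Filter Topology Polynomial

namespace Pool.Agent.H699R2

noncomputable section

/-- real square root of an element of `RAlg` -/
theorem sqrt_mem {a : RAlg} (ha : 0 ≤ (a : ℝ)) : ∃ b : RAlg, b ^ 2 = a := by
  have h1 : Real.sqrt (a : ℝ) ∈ RAlg := by
    have h2 : IsAlgebraic ℚ (a : ℝ) := mem_algebraicClosure_iff.1 a.2
    have h3 : IsAlgebraic ℚ (Real.sqrt (a : ℝ)) := by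
      refine IsAlgebraic.of_pow (n := 2) (by norm_num) ?_
      rw [Real.sq_sqrt ha]
      exact h2
    exact mem_algebraicClosure_iff.2 h3
  refine ⟨⟨_, h1⟩, ?_⟩
  apply Subtype.ext
  simp [Real.sq_sqrt ha]

/-- the endomorphism of `k(t)` sending `t` to `T` -/
theorem exists_subst {K : Type} [Field K] (T : RatFunc K) (hT : ¬ ∃ c, T = RatFunc.C c) :
    ∃ σ : RatFunc K →+* RatFunc K, σ RatFunc.X = T ∧ ∀ a, σ (RatFunc.C a) = RatFunc.C a := by
  have htr := RatFunc.transcendental_of_ne_C T hT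
  have hinj : Function.Injective (Polynomial.aeval (R := K) T) :=
    transcendental_iff_injective.1 htr
  obtain ⟨g, hg⟩ : ∃ g : K[X] →+* RatFunc K, ∀ x, g x = Polynomial.aeval (R := K) T x :=
    ⟨(Polynomial.aeval (R := K) T).toRingHom, fun x => rfl⟩
  have hinj' : Function.Injective g := by
    intro x y hxy
    apply hinj
    rw [← hg, ← hg, hxy]
  refine ⟨IsFractionRing.lift (A := K[X]) (K := RatFunc K) hinj', ?_, ?_⟩
  · rw [← RatFunc.algebraMap_X, IsFractionRing.lift_algebraMap, hg]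
    simp
  · intro a
    rw [← RatFunc.algebraMap_C, IsFractionRing.lift_algebraMap, hg]
    simp [RatFunc.algebraMap_eq_C]

theorem exp_not_mem (r : RAlg) : (r : ℝ) ≠ Real.exp 1 := by
  intro h
  apply exp_one_not_algebraic
  rw [← h]
  exact mem_algebraicClosure_iff.1 r.2

theorem X_ne_C {K : Type} [Field K] (c : K) : (RatFunc.X : RatFunc K) ≠ RatFunc.C c := by
  intro h
  rw [← RatFunc.algebraMap_X, ← RatFunc.algebraMap_C] at h
  exact Polynomial.X_ne_C c (RatFunc.algebraMap_injective K h)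

theorem aeval_int_eq {K σ : Type} [CommRing K] [Algebra ℤ K] (f : σ → K) (p : MvPolynomial σ ℤ) :
    MvPolynomial.aeval f p = MvPolynomial.eval₂ (Int.castRingHom K) f p := by
  rw [MvPolynomial.aeval_def]
  congr 1
  exact RingHom.ext_int _ _

/-- Polynomials over `ℤ` in the variables `t`, a real algebraic constant and further unknowns:
solvability passes from `ℝ(t)` to `k(t)`. -/
theorem transfer_point {β : Type} [Finite β] (p : MvPolynomial (Option (Unit ⊕ β)) ℤ) (r : RAlg)
    (w : β → RatFunc ℝ)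
    (hw : MvPolynomial.aeval (fun o : Option (Unit ⊕ β) =>
      o.elim RatFunc.X (Sum.elim (fun _ => RatFunc.C (r : ℝ)) w)) p = 0) :
    ∃ w' : β → RatFunc RAlg, MvPolynomial.aeval (fun o : Option (Unit ⊕ β) =>
      o.elim RatFunc.X (Sum.elim (fun _ => RatFunc.C r) w')) p = 0 := by
  classical
  obtain ⟨m, ⟨eq⟩⟩ := Finite.exists_equiv_fin β
  obtain ⟨ι, l, hl, w', hw'⟩ := transfer m (w ∘ eq.symm)
  let P : MvPolynomial (Fin m) (RAlg)[X] := MvPolynomial.aeval (fun o : Option (Unit ⊕ β) =>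
    o.elim (MvPolynomial.C Polynomial.X) (Sum.elim (fun _ => MvPolynomial.C (Polynomial.C r))
      (fun b => MvPolynomial.X (eq b)))) p
  have key : ∀ (K : Type) [Field K] (τ : (RAlg)[X] →+* K) (v : Fin m → K),
      MvPolynomial.eval₂ τ v P = MvPolynomial.eval₂ (Int.castRingHom K) (fun o : Option (Unit ⊕ β) =>
        o.elim (τ Polynomial.X) (Sum.elim (fun _ => τ (Polynomial.C r)) (v ∘ eq))) p := by
    intro K _ τ v
    have h1 : ((MvPolynomial.eval₂Hom τ v).comp
        (MvPolynomial.aeval (fun o : Option (Unit ⊕ β) =>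
          o.elim (MvPolynomial.C Polynomial.X) (Sum.elim (fun _ => MvPolynomial.C (Polynomial.C r))
          (fun b => MvPolynomial.X (eq b)))) : MvPolynomial (Option (Unit ⊕ β)) ℤ →ₐ[ℤ]
          MvPolynomial (Fin m) (RAlg)[X]).toRingHom) =
        (MvPolynomial.eval₂Hom (Int.castRingHom K) (fun o : Option (Unit ⊕ β) =>
        o.elim (τ Polynomial.X) (Sum.elim (fun _ => τ (Polynomial.C r)) (v ∘ eq)))) := by
      apply MvPolynomial.ringHom_ext
      · intro n
        simp
      · intro o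
        rcases o with _ | (_ | b)
        · simp
        · simp
        · simp
    exact congrArg (fun f => f p) h1
  obtain ⟨i, hi⟩ := (hw' P).exists
  have h2 := key (RatFunc ℝ) tauR (w ∘ eq.symm)
  have h3 := key (RatFunc RAlg) tauA (w' i)
  have h4 : (w ∘ eq.symm) ∘ eq = w := by
    funext b
    simp
  have h5 : tauR Polynomial.X = RatFunc.X := by
    simp [tauR]
  have h6 : tauR (Polynomial.C r) = RatFunc.C (r : ℝ) := by
    simp [tauR]
  have h7 : tauA Polynomial.X = RatFunc.X := by
    simp [tauA]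
  have h8 : tauA (Polynomial.C r) = RatFunc.C r := by
    simp [tauA]
  rw [h4, h5, h6] at h2
  rw [h7, h8] at h3
  refine ⟨w' i ∘ eq, ?_⟩
  rw [aeval_int_eq] at hw ⊢
  rw [← h3]
  rw [hw] at h2
  exact hi.2 h2

end

end Pool.Agent.H699R2
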