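import Pool.Agent.H699R2.Dio
import Pool.Agent.H699R2.ExpTrans

open Filter Topology

namespace Pool.Agent.H699R2

noncomputable section

theorem dioph_E : Dioph {u : Fin 3 → ℕ | u 1 = u 0 ^ u 0 ∧ u 2 = (u 0 + 1) ^ u 0 ∧ 1 ≤ u 0} := by
  have h0 : Dioph.DiophFn (fun u : Fin 3 → ℕ => u 0) := Dioph.proj_dioph 0
  have h1 : Dioph.DiophFn (fun u : Fin 3 → ℕ => u 1) := Dioph.proj_dioph 1
  have h2 : Dioph.DiophFn (fun u : Fin 3 → ℕ => u 2) := Dioph.proj_dioph 2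
  have hc : Dioph.DiophFn (fun _ : Fin 3 → ℕ => 1) := Dioph.const_dioph 1
  have e1 := Dioph.eq_dioph h1 (Dioph.pow_dioph h0 h0)
  have e2 := Dioph.eq_dioph h2 (Dioph.pow_dioph (Dioph.add_dioph h0 hc) h0)
  have e3 := Dioph.le_dioph hc h0
  exact (e1.inter (e2.inter e3)).ext fun v => by rfl

theorem lt_exp_one {n : ℕ} (hn : 1 ≤ n) : ((n : ℝ) + 1) ^ n / (n : ℝ) ^ n ≤ Real.exp 1 := by
  have hn0 : (0 : ℝ) < n := by exact_mod_cast hn
  rw [← div_pow, ← Real.exp_log (show 0 < ((n : ℝ) + 1) / n by positivity), ← Real.exp_nat_mul]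
  apply Real.exp_le_exp.2
  have h1 := Real.log_le_sub_one_of_pos (show 0 < ((n : ℝ) + 1) / n by positivity)
  calc (n : ℝ) * Real.log (((n : ℝ) + 1) / n) ≤ n * (((n : ℝ) + 1) / n - 1) := by gcongr
    _ = 1 := by field_simp; ring

theorem exp_one_le {n : ℕ} (hn : 1 ≤ n) :
    Real.exp 1 ≤ ((n : ℝ) + 1) ^ (n + 1) / (n : ℝ) ^ (n + 1) := by
  have hn0 : (0 : ℝ) < n := by exact_mod_cast hn
  rw [← div_pow, ← Real.exp_log (show 0 < ((n : ℝ) + 1) / n by positivity), ← Real.exp_nat_mul]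
  apply Real.exp_le_exp.2
  have h1 := Real.one_sub_inv_le_log_of_pos (show 0 < ((n : ℝ) + 1) / n by positivity)
  calc (1 : ℝ) = ((n + 1 : ℕ) : ℝ) * (1 - (((n : ℝ) + 1) / n)⁻¹) := by
        push_cast; field_simp; ring
    _ ≤ ((n + 1 : ℕ) : ℝ) * Real.log (((n : ℝ) + 1) / n) := by gcongr

theorem tendsto_lower :
    Tendsto (fun n : ℕ => ((n : ℝ) + 1) ^ n / (n : ℝ) ^ n) atTop (𝓝 (Real.exp 1)) := by
  have h := Real.tendsto_one_add_div_pow_exp 1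
  refine h.congr' ?_
  filter_upwards [eventually_ge_atTop 1] with n hn
  have hn0 : (0 : ℝ) < n := by exact_mod_cast hn
  rw [← div_pow]
  congr 1
  field_simp

theorem tendsto_upper :
    Tendsto (fun n : ℕ => ((n : ℝ) + 1) ^ (n + 1) / (n : ℝ) ^ (n + 1)) atTop
      (𝓝 (Real.exp 1)) := by
  have h1 : Tendsto (fun n : ℕ => ((n : ℝ) + 1) / n) atTop (𝓝 1) := by
    have := tendsto_one_div_atTop_nhds_zero_nat (𝕜 := ℝ)
    have h2 := this.const_add 1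
    rw [add_zero] at h2
    refine h2.congr' ?_
    filter_upwards [eventually_ge_atTop 1] with n hn
    have hn0 : (0 : ℝ) < n := by exact_mod_cast hn
    field_simp
  have h := tendsto_lower.mul h1
  rw [mul_one] at h
  refine h.congr fun n => ?_
  rw [pow_succ, pow_succ, div_mul_div_comm]

theorem ne_exp_iff (r : ℝ) : r ≠ Real.exp 1 ↔ ∃ n : ℕ, 1 ≤ n ∧
    (r * (n : ℝ) ^ n < ((n : ℝ) + 1) ^ n ∨
      ((n : ℝ) + 1) ^ n * ((n : ℝ) + 1) < r * ((n : ℝ) ^ n * n)) := by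
  constructor
  · intro h
    rcases lt_or_gt_of_ne h with h1 | h1
    · obtain ⟨N, hN⟩ := eventually_atTop.1 (tendsto_lower.eventually (lt_mem_nhds h1))
      refine ⟨N + 1, by omega, Or.inl ?_⟩
      have h2 := hN (N + 1) (by omega)
      have hn0 : (0 : ℝ) < (((N + 1 : ℕ) : ℝ)) ^ (N + 1) := by positivity
      rwa [lt_div_iff₀ hn0] at h2
    · obtain ⟨N, hN⟩ := eventually_atTop.1 (tendsto_upper.eventually (gt_mem_nhds h1))
      refine ⟨N + 1, by omega, Or.inr ?_⟩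
      have h2 := hN (N + 1) (by omega)
      have hn0 : (0 : ℝ) < (((N + 1 : ℕ) : ℝ)) ^ (N + 1 + 1) := by positivity
      rw [div_lt_iff₀ hn0] at h2
      rwa [pow_succ, pow_succ (((N + 1 : ℕ) : ℝ))] at h2
  · rintro ⟨n, hn, h | h⟩ rfl
    · have h1 := lt_exp_one hn
      have hn0 : (0 : ℝ) < n := by exact_mod_cast hn
      rw [div_le_iff₀ (by positivity)] at h1
      linarith
    · have h1 := exp_one_le hn
      have hn0 : (0 : ℝ) < n := by exact_mod_cast hn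
      rw [le_div_iff₀ (by positivity), pow_succ, pow_succ] at h1
      linarith

theorem pos_iff (ρ : ℝ) : 0 < ρ ↔ ∃ z : RatFunc ℝ, RatFunc.C ρ * z ^ 2 = 1 := by
  constructor
  · intro h
    refine ⟨RatFunc.C (1 / Real.sqrt ρ), ?_⟩
    rw [← map_pow, ← map_mul, div_pow, Real.sq_sqrt h.le, one_pow, mul_one_div_cancel h.ne', map_one]
  · rintro ⟨z, hz⟩
    have h1 : RatFunc.C ρ = (RatFunc.C ρ * z) ^ 2 := by
      linear_combination (-RatFunc.C ρ) * hz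
    have h2 := nonneg_of_sq h1
    rcases h2.lt_or_eq with h3 | h3
    · exact h3
    · rw [← h3] at hz
      simp at hz

theorem ne_exp_TD : ∃ (β : Type) (_ : Finite β) (p : MvPolynomial (Option (Unit ⊕ β)) ℤ),
    ∀ r : ℝ, r ≠ Real.exp 1 ↔ ∃ w : β → RatFunc ℝ, MvPolynomial.aeval
      (fun o => o.elim RatFunc.X (Sum.elim (fun _ => RatFunc.C r) w)) p = 0 := by
  have key : TD (fun v : Unit → RatFunc ℝ => ∃ x : Fin 3 → RatFunc ℝ,
      (∃ u ∈ {u : Fin 3 → ℕ | u 1 = u 0 ^ u 0 ∧ u 2 = (u 0 + 1) ^ u 0 ∧ 1 ≤ u 0},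
        x = fun i => ((u i : ℕ) : RatFunc ℝ)) ∧
      ((∃ z : Unit → RatFunc ℝ, (x 2 - v () * x 1) * z () ^ 2 = 1) ∨
       (∃ z : Unit → RatFunc ℝ, (v () * (x 1 * x 0) - x 2 * (x 0 + 1)) * z () ^ 2 = 1))) := by
    refine TD.ex (S := fun s : Unit ⊕ Fin 3 → RatFunc ℝ =>
      (∃ u ∈ {u : Fin 3 → ℕ | u 1 = u 0 ^ u 0 ∧ u 2 = (u 0 + 1) ^ u 0 ∧ 1 ≤ u 0},
        (fun i => s (Sum.inr i)) = fun i => ((u i : ℕ) : RatFunc ℝ)) ∧
      ((∃ z : Unit → RatFunc ℝ, (s (Sum.inr 2) - s (Sum.inl ()) * s (Sum.inr 1)) * z () ^ 2 = 1) ∨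
       (∃ z : Unit → RatFunc ℝ, (s (Sum.inl ()) * (s (Sum.inr 1) * s (Sum.inr 0)) -
          s (Sum.inr 2) * (s (Sum.inr 0) + 1)) * z () ^ 2 = 1))) ?_
    refine TD.and ?_ (TD.or ?_ ?_)
    · exact TD.comp (dioph_TD dioph_E) (f := fun i s => s (Sum.inr i)) fun i => PolyF.var _
    · refine TD.ex (S := fun s : (Unit ⊕ Fin 3) ⊕ Unit → RatFunc ℝ =>
        (s (Sum.inl (Sum.inr 2)) - s (Sum.inl (Sum.inl ())) * s (Sum.inl (Sum.inr 1))) *
          s (Sum.inr ()) ^ 2 = 1) ?_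
      exact TD.eq (((PolyF.var _).sub ((PolyF.var _).mul (PolyF.var _))).mul
        ((PolyF.var _).pow 2)) PolyF.one
    · refine TD.ex (S := fun s : (Unit ⊕ Fin 3) ⊕ Unit → RatFunc ℝ =>
        (s (Sum.inl (Sum.inl ())) * (s (Sum.inl (Sum.inr 1)) * s (Sum.inl (Sum.inr 0))) -
          s (Sum.inl (Sum.inr 2)) * (s (Sum.inl (Sum.inr 0)) + 1)) *
          s (Sum.inr ()) ^ 2 = 1) ?_
      exact TD.eq ((((PolyF.var _).mul ((PolyF.var _).mul (PolyF.var _))).sub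
        ((PolyF.var _).mul ((PolyF.var _).add PolyF.one))).mul
        ((PolyF.var _).pow 2)) PolyF.one
  obtain ⟨β, hβ, p, hp⟩ := key
  refine ⟨β, hβ, p, fun r => ?_⟩
  rw [← hp, ne_exp_iff]
  have hnat : ∀ m : ℕ, (m : RatFunc ℝ) = RatFunc.C (m : ℝ) := fun m => by simp
  constructor
  · rintro ⟨n, hn, h⟩
    refine ⟨fun i => (((![n, n ^ n, (n + 1) ^ n] : Fin 3 → ℕ) i : ℕ) : RatFunc ℝ),
      ⟨_, ⟨rfl, rfl, hn⟩, rfl⟩, ?_⟩
    rcases h with h | h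
    · left
      obtain ⟨z, hz⟩ := (pos_iff _).1 (sub_pos.2 h)
      refine ⟨fun _ => z, ?_⟩
      rw [← hz]
      congr 1
      simp
    · right
      obtain ⟨z, hz⟩ := (pos_iff _).1 (sub_pos.2 h)
      refine ⟨fun _ => z, ?_⟩
      have e : (RatFunc.C r * (((n ^ n : ℕ) : RatFunc ℝ) * n) -
          (((n + 1) ^ n : ℕ) : RatFunc ℝ) * (n + 1)) =
          RatFunc.C (r * ((n : ℝ) ^ n * n) - ((n : ℝ) + 1) ^ n * ((n : ℝ) + 1)) := by
        push_cast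
        simp
      rw [← e] at hz
      exact hz
  · rintro ⟨x, ⟨u, ⟨h1, h2, h3⟩, rfl⟩, h⟩
    refine ⟨u 0, h3, ?_⟩
    rcases h with ⟨z, hz⟩ | ⟨z, hz⟩
    · left
      rw [← sub_pos]
      apply (pos_iff _).2
      refine ⟨z (), ?_⟩
      rw [← hz]
      congr 1
      simp [h1, h2]
    · right
      rw [← sub_pos]
      apply (pos_iff _).2
      refine ⟨z (), ?_⟩
      rw [← hz]
      congr 1
      simp [h1, h2]

end

end Pool.Agent.H699R2
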